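import Pool.Agent.N871.P17.Div

/-!
# The divisibility statements `S_U1` and `S_U3` of the project P17
-/

set_option autoImplicit false

namespace Pool.Agent.N871.P17

open Finset
open Pool.Agent.Z700 (hh fac)
open Pool.Agent.N969.P15 (V3 tw)
open Pool.Agent.N871.P15
open Pool.Agent.N972.P17

/-! ### Cauchy-Schwarz for the two lattices -/

theorem ip1_nonneg (v : V3) : 0 ≤ ip1 v v := by
  have h : 7 * ip1 v v = (7 * v 0 - 3 * v 1 - 2 * v 2) ^ 2 + 34 * (v 1 - v 2) ^ 2 +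
      34 * v 1 ^ 2 + 102 * v 2 ^ 2 := by
    unfold ip1; ring
  have h1 := sq_nonneg (7 * v 0 - 3 * v 1 - 2 * v 2)
  have h2 := sq_nonneg (v 1 - v 2)
  have h3 := sq_nonneg (v 1)
  have h4 := sq_nonneg (v 2)
  omega

theorem ip2_nonneg (v : V3) : 0 ≤ ip2 v v := by
  have h : 3 * ip2 v v = (3 * v 0 - v 1 - v 2) ^ 2 + 34 * (v 1 - v 2) ^ 2 +
      34 * v 1 ^ 2 + 34 * v 2 ^ 2 := by
    unfold ip2; ring
  have h1 := sq_nonneg (3 * v 0 - v 1 - v 2)
  have h2 := sq_nonneg (v 1 - v 2)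
  have h3 := sq_nonneg (v 1)
  have h4 := sq_nonneg (v 2)
  omega

theorem cs1 (v w : V3) (hw : 0 < ip1 w w) : ip1 v w ^ 2 ≤ ip1 v v * ip1 w w := by
  have h := ip1_nonneg (fun i => ip1 w w * v i - ip1 v w * w i)
  have e : ip1 (fun i => ip1 w w * v i - ip1 v w * w i) (fun i => ip1 w w * v i - ip1 v w * w i) =
      ip1 w w * (ip1 v v * ip1 w w - ip1 v w ^ 2) := by
    unfold ip1; ring
  rw [e] at h
  have := nonneg_of_mul_nonneg_right h hw
  linarith

theorem cs2 (v w : V3) (hw : 0 < ip2 w w) : ip2 v w ^ 2 ≤ ip2 v v * ip2 w w := by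
  have h := ip2_nonneg (fun i => ip2 w w * v i - ip2 v w * w i)
  have e : ip2 (fun i => ip2 w w * v i - ip2 v w * w i) (fun i => ip2 w w * v i - ip2 v w * w i) =
      ip2 w w * (ip2 v v * ip2 w w - ip2 v w ^ 2) := by
    unfold ip2; ring
  rw [e] at h
  have := nonneg_of_mul_nonneg_right h hw
  linarith

/-- the pairs as a sum over the inner products -/
theorem card_sum (V W : Finset V3) (ip : V3 → V3 → ℤ) (B : ℕ)
    (h : ∀ v ∈ V, ∀ w ∈ W, ip v w ^ 2 < (B : ℤ) ^ 2) :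
    ((V.card * W.card : ℕ) : ℤ) =
      ∑ b ∈ Ioo (-(B : ℤ)) B, (((V ×ˢ W).filter fun q => ip q.1 q.2 = b).card : ℤ) := by
  rw [← Finset.card_product, Finset.card_eq_sum_card_fiberwise (f := fun q : V3 × V3 =>
    ip q.1 q.2) (t := Ioo (-(B : ℤ)) B)]
  · push_cast
    rfl
  · rintro ⟨v, w⟩ hq
    rw [Finset.mem_coe, Finset.mem_product] at hq
    rw [Finset.mem_coe, Finset.mem_Ioo]
    exact abs_lt.1 (abs_lt_of_sq_lt_sq (h v hq.1 w hq.2) (by positivity))

theorem SS_sum {n1 n2 B : ℕ} (hn2 : 0 < n2) (h : n1 * n2 < B ^ 2) :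
    SS n1 n2 = ∑ b ∈ Ioo (-(B : ℤ)) B, (3 * cp1 n1 b n2 + cp2 n1 b n2 : ℤ) := by
  have h5 : ((n1 : ℤ) * n2) < (B : ℤ) ^ 2 := by exact_mod_cast h
  have h1 := card_sum (vec1 n1) (vec1 n2) ip1 B (by
    intro v hv w hw
    unfold vec1 at hv hw
    rw [Finset.mem_filter] at hv hw
    have := cs1 v w (by rw [hw.2]; exact_mod_cast hn2)
    rw [hv.2, hw.2] at this
    exact lt_of_le_of_lt this h5)
  have h2 := card_sum (vec2 n1) (vec2 n2) ip2 B (by
    intro v hv w hw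
    unfold vec2 at hv hw
    rw [Finset.mem_filter] at hv hw
    have := cs2 v w (by rw [hw.2]; exact_mod_cast hn2)
    rw [hv.2, hw.2] at this
    exact lt_of_le_of_lt this h5)
  push_cast at h1 h2
  unfold SS
  rw [h1, h2, Finset.sum_add_distrib, Finset.mul_sum]
  rfl

/-- the sum of the local densities -/
theorem SS_loc (hPC : S_PC) {n1 n2 B N : ℕ} (hs : Squarefree n1) (h4 : n1 % 4 = 3)
    (h17 : ¬ 17 ∣ n1) (hN : n1 * n2 = N) (hn2 : 0 < n2)
    (hsq : ∀ b : ℤ, b ^ 2 ≠ N) (hB : N < B ^ 2) :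
    SS n1 n2 = 6 * ∑ b ∈ Ioo (-(B : ℤ)) B,
      (if b ^ 2 < N then loc n1 ((N : ℤ) - b ^ 2).toNat else 0) := by
  have hN' : (n1 : ℤ) * n2 = N := by exact_mod_cast hN
  rw [SS_sum (B := B) hn2 (by rw [hN]; exact hB), Finset.mul_sum]
  refine Finset.sum_congr rfl fun b _ => ?_
  by_cases hb : b ^ 2 < (N : ℤ)
  · rw [if_pos hb]
    refine hPC n1 n2 b _ hs h4 h17 (by omega) ?_
    rw [Int.toNat_of_nonneg (by linarith), hN']
  · rw [if_neg hb, mul_zero]
    have hb' : (N : ℤ) < b ^ 2 := lt_of_le_of_ne (not_lt.1 hb) (Ne.symm (hsq b))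
    have hn2' : (0 : ℤ) < n2 := by exact_mod_cast hn2
    have e1 : cp1 n1 b n2 = 0 := by
      unfold cp1
      rw [Finset.card_eq_zero, Finset.filter_eq_empty_iff]
      rintro ⟨v, w⟩ hq h
      rw [Finset.mem_product] at hq
      obtain ⟨hv, hw⟩ := hq
      unfold vec1 at hv hw
      rw [Finset.mem_filter] at hv hw
      have h1 := hv.2
      have h2 := hw.2
      dsimp only at h h1 h2
      have := cs1 v w (by rw [h2]; exact hn2')
      rw [h1, h2, h, hN'] at this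
      linarith
    have e2 : cp2 n1 b n2 = 0 := by
      unfold cp2
      rw [Finset.card_eq_zero, Finset.filter_eq_empty_iff]
      rintro ⟨v, w⟩ hq h
      rw [Finset.mem_product] at hq
      obtain ⟨hv, hw⟩ := hq
      unfold vec2 at hv hw
      rw [Finset.mem_filter] at hv hw
      have h1 := hv.2
      have h2 := hw.2
      dsimp only at h h1 h2
      have := cs2 v w (by rw [h2]; exact hn2')
      rw [h1, h2, h, hN'] at this
      linarith
    rw [e1, e2]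
    norm_num

/-- the conditions at the common primes -/
theorem hl_of {q' m D l : ℕ} {b : ℤ} (hm : Squarefree m) (hD : D ≠ 0)
    (hDD : (D : ℤ) = q' * m - b ^ 2) (hl : l.Prime) (hlD : l ∣ D) (hq1 : ¬ l ∣ q')
    (hq2 : ∀ x : ℕ, jacobiSym ((q' * x : ℕ) : ℤ) l = jacobiSym ((1 * x : ℕ) : ℤ) l) :
    Hl m D l := by
  intro hlm
  obtain ⟨m', rfl⟩ := hlm
  have hm' : ¬ l ∣ m' := by
    rintro ⟨c, rfl⟩
    exact hl.one_lt.ne' (Nat.isUnit_iff.1 (hm l ⟨c, by ring⟩))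
  obtain ⟨D', rfl⟩ := hlD
  have hlb : (l : ℤ) ∣ b := by
    have : (l : ℤ) ∣ b ^ 2 := ⟨q' * m' - D', by push_cast at hDD; linarith⟩
    exact (Nat.prime_iff_prime_int.1 hl).dvd_of_dvd_pow this
  obtain ⟨c, rfl⟩ := hlb
  have hl0 : (l : ℤ) ≠ 0 := by exact_mod_cast hl.ne_zero
  have e2 : (D' : ℤ) = q' * m' - l * c ^ 2 := by
    push_cast at hDD
    have : (l : ℤ) * D' = l * (q' * m' - l * c ^ 2) := by linarith
    exact mul_left_cancel₀ hl0 this
  have hn : ¬ l ∣ D' := by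
    intro h
    have h1 : (l : ℤ) ∣ ((q' * m' : ℕ) : ℤ) := by
      have : ((q' * m' : ℕ) : ℤ) = D' + l * c ^ 2 := by push_cast; rw [e2]; ring
      rw [this]
      exact dvd_add (by exact_mod_cast h) (Dvd.intro _ rfl)
    have h2 : l ∣ q' * m' := by exact_mod_cast h1
    rcases (Nat.Prime.dvd_mul hl).1 h2 with h | h
    · exact hq1 h
    · exact hm' h
  have hD' : D' ≠ 0 := by
    rintro rfl
    simp at hD
  rw [Nat.mul_div_cancel_left _ hl.pos, Nat.mul_div_cancel_left _ hl.pos]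
  refine ⟨?_, ?_⟩
  · rw [Nat.factorization_mul hl.ne_zero hD', Finsupp.add_apply, hl.factorization_self,
      Nat.factorization_eq_zero_of_not_dvd hn]
  · rw [← hq2]
    apply jacobiSym.mod_left'
    rw [e2, Int.sub_mul_emod_self_left]
    push_cast
    rfl

theorem hy7_one {m D : ℕ} {b : ℤ} (hm : Squarefree m) (hD : D ≠ 0)
    (hDD : (D : ℤ) = m - b ^ 2) {l : ℕ} (hl : l.Prime) (hlD : l ∣ D) : Hl m D l :=
  hl_of (q' := 1) (b := b) hm hD (by rw [hDD]; push_cast; ring) hl hlD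
    (fun h => hl.one_lt.ne' (Nat.dvd_one.1 h)) fun _ => rfl

theorem hy7_nine {m D : ℕ} {b : ℤ} (hm : Squarefree m) (hD : D ≠ 0)
    (hDD : (D : ℤ) = 9 * m - b ^ 2) {l : ℕ} (hl : l.Prime) (h3 : l ≠ 3) (hlD : l ∣ D) :
    Hl m D l := by
  refine hl_of (q' := 9) (b := b) hm hD (by rw [hDD]; push_cast; ring) hl hlD (fun h => ?_)
    fun x => ?_
  · have e : (9 : ℕ) = 3 * 3 := by norm_num
    rw [e] at h
    rcases (Nat.Prime.dvd_mul hl).1 h with h | h <;> exact not_dvd_three hl h3 h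
  · have e : ((9 * x : ℕ) : ℤ) = (3 : ℤ) ^ 2 * ((1 * x : ℕ) : ℤ) := by push_cast; ring
    rw [e, jacobiSym.mul_left, jacobiSym.sq_one', one_mul]
    rw [Int.gcd_comm]
    have : Nat.Coprime l 3 := (Nat.coprime_primes hl Nat.prime_three).2 h3
    simpa [Int.gcd] using this

theorem nsq {D : ℕ} (hs : Squarefree D) (hD : 1 < D) (b : ℤ) : b ^ 2 ≠ D := by
  intro hb
  have h1 : b.natAbs * b.natAbs ∣ D := by
    have : ((b.natAbs * b.natAbs : ℕ) : ℤ) = D := by
      push_cast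
      rw [← hb, ← sq, sq_abs]
    have : b.natAbs * b.natAbs = D := by exact_mod_cast this
    rw [this]
  have h6 := Nat.isUnit_iff.1 (hs _ h1)
  have : b ^ 2 = 1 := by
    rw [← Int.natAbs_sq b, h6]; norm_num
  rw [this] at hb
  omega

theorem nsq9 {D : ℕ} (hs : Squarefree D) (hD : 1 < D) (b : ℤ) : b ^ 2 ≠ ((9 * D : ℕ) : ℤ) := by
  intro hb
  have h3 : (3 : ℤ) ∣ b := by
    have : (3 : ℤ) ∣ b ^ 2 := ⟨3 * D, by rw [hb]; push_cast; ring⟩
    exact Int.prime_three.dvd_of_dvd_pow this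
  obtain ⟨c, rfl⟩ := h3
  refine nsq hs hD c ?_
  push_cast at hb
  linarith

theorem cp_facts {D : ℕ} (h : Cp D) : Squarefree D ∧ D % 4 = 1 ∧ ¬ 2 ∣ D ∧ ¬ 17 ∣ D := by
  obtain ⟨h1, h2, h3⟩ := h
  refine ⟨h1, h2, by omega, ?_⟩
  intro h4
  obtain ⟨c, rfl⟩ := h4
  have : jacobiSym ((17 * c : ℕ) : ℤ) 17 = 0 := by
    rw [jacobiSym.mod_left]
    have : ((17 * c : ℕ) : ℤ) % (17 : ℕ) = 0 := by push_cast; omega
    rw [this]
    norm_num
  rw [this] at h3
  exact absurd h3 (by norm_num)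

/-- the complementary divisor -/
theorem div_facts {D d : ℕ} (h4 : D % 4 = 1) (hd : d ∣ D) :
    d * (D / d) = D ∧ (d % 4 = 1 → D / d % 4 = 1) ∧ (d % 4 = 3 → D / d % 4 = 3) ∧ 0 < D / d := by
  have e1 : d * (D / d) = D := Nat.mul_div_cancel' hd
  have e2 : (d % 4) * (D / d % 4) % 4 = 1 := by rw [← Nat.mul_mod, e1, h4]
  have h5 : D / d % 4 = 0 ∨ D / d % 4 = 1 ∨ D / d % 4 = 2 ∨ D / d % 4 = 3 := by omega
  refine ⟨e1, ?_, ?_, ?_⟩
  · intro h
    rw [h] at e2
    rcases h5 with h5 | h5 | h5 | h5 <;> rw [h5] at e2 <;> omega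
  · intro h
    rw [h] at e2
    rcases h5 with h5 | h5 | h5 | h5 <;> rw [h5] at e2 <;> omega
  · rcases Nat.eq_zero_or_pos (D / d) with h | h
    · rw [h] at e1
      omega
    · exact h

theorem t_U1 (hPC : S_PC) : S_U1 := by
  intro D hD hD1
  obtain ⟨hs, h4, h2, h17⟩ := cp_facts hD
  have hDB : D < D ^ 2 := by nlinarith
  set F3 := D.divisors.filter (fun d => d % 4 = 3) with hF3
  set G : ℤ → ℤ := fun b => if b ^ 2 < (D : ℤ) then ∑ d ∈ F3, loc d ((D : ℤ) - b ^ 2).toNat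
    else 0 with hG
  have key : ∑ d ∈ F3, SS (d : ℕ) (D / d : ℕ) = 6 * ∑ b ∈ Ioo (-(D : ℤ)) D, G b := by
    have e1 : ∀ d ∈ F3, SS (d : ℕ) (D / d : ℕ) = ∑ b ∈ Ioo (-(D : ℤ)) D,
        6 * (if b ^ 2 < (D : ℤ) then loc d ((D : ℤ) - b ^ 2).toNat else 0) := by
      intro d hd
      rw [hF3, Finset.mem_filter, Nat.mem_divisors] at hd
      obtain ⟨⟨hdn, hn0⟩, hd4⟩ := hd
      obtain ⟨f1, f2, f3, f4⟩ := div_facts h4 hdn
      rw [SS_loc hPC (hs.squarefree_of_dvd hdn) hd4 (fun h => h17 (h.trans hdn)) f1 f4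
        (nsq hs hD1) hDB, Finset.mul_sum]
    rw [Finset.sum_congr rfl e1, Finset.sum_comm, Finset.mul_sum]
    refine Finset.sum_congr rfl fun b _ => ?_
    rw [hG]
    by_cases hb : b ^ 2 < (D : ℤ)
    · simp only [hb, if_true, Finset.mul_sum]
    · simp only [hb, if_false, mul_zero, Finset.sum_const_zero]
  rw [key, sum_symm D G]
  · have hdiv : (2 : ℤ) ^ D.primeFactors.card ∣ 2 * ∑ b ∈ Ioo (0 : ℤ) D, G b := by
      rw [Finset.mul_sum]
      refine Finset.dvd_sum fun b _ => ?_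
      by_cases hb : b ^ 2 < (D : ℤ)
      · have e : G b = ∑ d ∈ F3, loc d ((D : ℤ) - b ^ 2).toNat := by
          rw [hG]; simp only [hb, if_true]
        rw [e]
        have hDD : ((((D : ℤ) - b ^ 2).toNat : ℕ) : ℤ) = D - b ^ 2 :=
          Int.toNat_of_nonneg (by linarith)
        have hD0 : ((D : ℤ) - b ^ 2).toNat ≠ 0 := by omega
        exact div_1 hs h2 hD0 (fun l hl _ _ _ hlD => hy7_one (b := b) hs hD0 hDD hl hlD)
          fun h => hy7_one (b := b) hs hD0 hDD Nat.prime_three h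
      · have e : G b = 0 := by rw [hG]; simp only [hb, if_false]
        rw [e, mul_zero]
        exact dvd_zero _
    obtain ⟨c, hc⟩ := hdiv
    rw [hc]
    exact ⟨3 * c, by rw [pow_succ]; ring⟩
  · intro b
    rw [hG]
    have : (-b) ^ 2 = b ^ 2 := by ring
    simp only [this]
  · rw [hG]
    have h0 : (0 : ℤ) ^ 2 < (D : ℤ) := by
      have : (0 : ℤ) < D := by exact_mod_cast (by omega : 0 < D)
      linarith
    simp only [h0, if_true]
    refine Finset.sum_eq_zero fun d _ => loc_zero_2 (fact_two_odd ?_)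
    omega

theorem SS_symm (a b : ℤ) : SS a b = SS b a := by
  unfold SS
  ring

theorem rr_mul {a b : ℤ} {c : ℤ} (h1 : rr (9 * b) = (4 - c) * rr b) (h2 : cc (9 * b) = - c * cc b) :
    rr a * rr b = SS a (9 * b) + c * SS a b := by
  have e : ∀ x y : ℤ, 4 * SS x y = rr x * rr y + 3 * (cc x * cc y) := by
    intro x y
    unfold SS rr cc
    ring
  have e1 := e a (9 * b)
  have e2 := e a b
  rw [h1, h2] at e1
  have : 4 * (rr a * rr b) = 4 * (SS a (9 * b) + c * SS a b) := by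
    rw [mul_add, e1]
    linear_combination (-c) * e2
  linarith

theorem sum_third (D : ℕ) (g : ℤ → ℤ) : ∑ b ∈ Ioo (-(D : ℤ)) D, g b =
    ∑ b ∈ Ioo (-((3 * D : ℕ) : ℤ)) ((3 * D : ℕ) : ℤ), if (3 : ℤ) ∣ b then g (b / 3) else 0 := by
  rw [← Finset.sum_filter]
  refine Finset.sum_nbij' (fun b => 3 * b) (fun b => b / 3) ?_ ?_ ?_ ?_ ?_
  · intro b hb
    rw [Finset.mem_Ioo] at hb
    rw [Finset.mem_filter, Finset.mem_Ioo]
    push_cast
    refine ⟨⟨by linarith [hb.1], by linarith [hb.2]⟩, Dvd.intro _ rfl⟩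
  · intro b hb
    rw [Finset.mem_filter, Finset.mem_Ioo] at hb
    rw [Finset.mem_Ioo]
    push_cast at hb
    obtain ⟨⟨h1, h2⟩, c, rfl⟩ := hb
    rw [Int.mul_ediv_cancel_left _ (by norm_num)]
    constructor <;> linarith
  · intro b _
    show 3 * b / 3 = b
    rw [Int.mul_ediv_cancel_left _ (by norm_num)]
  · intro b hb
    rw [Finset.mem_filter] at hb
    obtain ⟨_, c, rfl⟩ := hb
    show 3 * (3 * c / 3) = 3 * c
    rw [Int.mul_ediv_cancel_left _ (by norm_num)]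
  · intro b _
    show g b = g (3 * b / 3)
    rw [Int.mul_ediv_cancel_left _ (by norm_num)]

theorem t_U3 (hPC : S_PC) (hHE : S_HE3) : S_U3 := by
  intro D hD hD1 h3
  obtain ⟨hs, h4, h2, h17⟩ := cp_facts hD
  set F1 := D.divisors.filter (fun d => d % 4 = 1) with hF1
  set F3 := D.divisors.filter (fun d => d % 4 = 3) with hF3
  have hB : 9 * D < (3 * D) ^ 2 := by nlinarith
  have hDB : D < D ^ 2 := by nlinarith
  set FU : ℤ → ℤ := fun b => if b ^ 2 < ((9 * D : ℕ) : ℤ) then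
    ∑ d ∈ F1, loc (3 * d) (((9 * D : ℕ) : ℤ) - b ^ 2).toNat else 0 with hFU
  set FV : ℤ → ℤ := fun b => if b ^ 2 < ((9 * D : ℕ) : ℤ) then
    ∑ d ∈ F3, loc d (((9 * D : ℕ) : ℤ) - b ^ 2).toNat else 0 with hFV
  set FW : ℤ → ℤ := fun b => if b ^ 2 < (D : ℤ) then
    ∑ d ∈ F3, jacobiSym (-(d : ℤ)) 3 * loc d ((D : ℤ) - b ^ 2).toNat else 0 with hFW
  -- the first sum
  have k1 : ∑ d ∈ F1, SS (3 * d : ℕ) (3 * (D / d) : ℕ) =
      6 * ∑ b ∈ Ioo (-((3 * D : ℕ) : ℤ)) ((3 * D : ℕ) : ℤ), FU b := by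
    have e1 : ∀ d ∈ F1, SS (3 * d : ℕ) (3 * (D / d) : ℕ) =
        ∑ b ∈ Ioo (-((3 * D : ℕ) : ℤ)) ((3 * D : ℕ) : ℤ),
        6 * (if b ^ 2 < ((9 * D : ℕ) : ℤ) then
          loc (3 * d) (((9 * D : ℕ) : ℤ) - b ^ 2).toNat else 0) := by
      intro d hd
      rw [hF1, Finset.mem_filter, Nat.mem_divisors] at hd
      obtain ⟨⟨hdn, hn0⟩, hd4⟩ := hd
      obtain ⟨f1, f2, f3, f4⟩ := div_facts h4 hdn
      rw [SS_loc hPC (n1 := 3 * d) (n2 := 3 * (D / d)) (N := 9 * D) ?_ (by omega) ?_ ?_ (by omega)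
        (nsq9 hs hD1) hB, Finset.mul_sum]
      · rw [Nat.squarefree_mul_iff]
        refine ⟨?_, Nat.prime_three.squarefree, hs.squarefree_of_dvd hdn⟩
        exact (Nat.Prime.coprime_iff_not_dvd Nat.prime_three).2 fun h => h3 (h.trans hdn)
      · intro h
        rcases (Nat.Prime.dvd_mul (by norm_num : Nat.Prime 17)).1 h with h | h
        · omega
        · exact h17 (h.trans hdn)
      · calc 3 * d * (3 * (D / d)) = 9 * (d * (D / d)) := by ring
          _ = 9 * D := by rw [f1]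
    rw [Finset.sum_congr rfl e1, Finset.sum_comm, Finset.mul_sum]
    refine Finset.sum_congr rfl fun b _ => ?_
    rw [hFU]
    by_cases hb : b ^ 2 < ((9 * D : ℕ) : ℤ)
    · simp only [hb, if_true, Finset.mul_sum]
    · simp only [hb, if_false, mul_zero, Finset.sum_const_zero]
  -- the products of the class numbers
  have k2 : ∀ d ∈ F3, rr (d : ℕ) * rr (D / d : ℕ) = SS (d : ℕ) (9 * (D / d) : ℕ) +
      jacobiSym (-((D / d : ℕ) : ℤ)) 3 * SS (d : ℕ) (D / d : ℕ) := by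
    intro d hd
    rw [hF3, Finset.mem_filter, Nat.mem_divisors] at hd
    obtain ⟨⟨hdn, hn0⟩, hd4⟩ := hd
    obtain ⟨f1, f2, f3, f4⟩ := div_facts h4 hdn
    have hdvd : D / d ∣ D := Nat.div_dvd_of_dvd hdn
    obtain ⟨g1, g2⟩ := hHE (D / d) (f3 hd4) (fun h => h17 (h.trans hdvd))
      (fun h => h3 (h.trans hdvd))
    have := rr_mul (a := (d : ℤ)) g1 g2
    rw [this]
    push_cast
    rfl
  have k3 : ∑ d ∈ F3, SS (d : ℕ) (9 * (D / d) : ℕ) =
      6 * ∑ b ∈ Ioo (-((3 * D : ℕ) : ℤ)) ((3 * D : ℕ) : ℤ), FV b := by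
    have e1 : ∀ d ∈ F3, SS (d : ℕ) (9 * (D / d) : ℕ) =
        ∑ b ∈ Ioo (-((3 * D : ℕ) : ℤ)) ((3 * D : ℕ) : ℤ),
        6 * (if b ^ 2 < ((9 * D : ℕ) : ℤ) then
          loc d (((9 * D : ℕ) : ℤ) - b ^ 2).toNat else 0) := by
      intro d hd
      rw [hF3, Finset.mem_filter, Nat.mem_divisors] at hd
      obtain ⟨⟨hdn, hn0⟩, hd4⟩ := hd
      obtain ⟨f1, f2, f3, f4⟩ := div_facts h4 hdn
      rw [SS_loc hPC (n1 := d) (n2 := 9 * (D / d)) (N := 9 * D) (hs.squarefree_of_dvd hdn) hd4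
        (fun h => h17 (h.trans hdn)) ?_ (by omega) (nsq9 hs hD1) hB, Finset.mul_sum]
      calc d * (9 * (D / d)) = 9 * (d * (D / d)) := by ring
        _ = 9 * D := by rw [f1]
    rw [Finset.sum_congr rfl e1, Finset.sum_comm, Finset.mul_sum]
    refine Finset.sum_congr rfl fun b _ => ?_
    rw [hFV]
    by_cases hb : b ^ 2 < ((9 * D : ℕ) : ℤ)
    · simp only [hb, if_true, Finset.mul_sum]
    · simp only [hb, if_false, mul_zero, Finset.sum_const_zero]
  have k4 : ∑ d ∈ F3, jacobiSym (-((D / d : ℕ) : ℤ)) 3 * SS (d : ℕ) (D / d : ℕ) =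
      6 * ∑ b ∈ Ioo (-(D : ℤ)) D, FW b := by
    have e0 : ∑ d ∈ F3, jacobiSym (-((D / d : ℕ) : ℤ)) 3 * SS (d : ℕ) (D / d : ℕ) =
        ∑ d ∈ F3, jacobiSym (-(d : ℤ)) 3 * SS (d : ℕ) (D / d : ℕ) := by
      have hmem : ∀ d ∈ F3, D / d ∈ F3 := by
        intro d hd
        rw [hF3, Finset.mem_filter, Nat.mem_divisors] at hd ⊢
        obtain ⟨⟨hdn, hn0⟩, hd4⟩ := hd
        exact ⟨⟨Nat.div_dvd_of_dvd hdn, hn0⟩, (div_facts h4 hdn).2.2.1 hd4⟩
      have hinv : ∀ d ∈ F3, D / (D / d) = d := by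
        intro d hd
        rw [hF3, Finset.mem_filter, Nat.mem_divisors] at hd
        exact Nat.div_div_self hd.1.1 hd.1.2
      refine Finset.sum_nbij' (fun d => D / d) (fun d => D / d) hmem hmem hinv hinv ?_
      intro d hd
      rw [hinv d hd, SS_symm]
    have e1 : ∀ d ∈ F3, jacobiSym (-(d : ℤ)) 3 * SS (d : ℕ) (D / d : ℕ) =
        ∑ b ∈ Ioo (-(D : ℤ)) D,
        6 * (if b ^ 2 < (D : ℤ) then jacobiSym (-(d : ℤ)) 3 * loc d ((D : ℤ) - b ^ 2).toNat
          else 0) := by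
      intro d hd
      rw [hF3, Finset.mem_filter, Nat.mem_divisors] at hd
      obtain ⟨⟨hdn, hn0⟩, hd4⟩ := hd
      obtain ⟨f1, f2, f3, f4⟩ := div_facts h4 hdn
      rw [SS_loc hPC (hs.squarefree_of_dvd hdn) hd4 (fun h => h17 (h.trans hdn)) f1 f4
        (nsq hs hD1) hDB, Finset.mul_sum, Finset.mul_sum]
      refine Finset.sum_congr rfl fun b _ => ?_
      split_ifs
      · ring
      · ring
    rw [e0, Finset.sum_congr rfl e1, Finset.sum_comm, Finset.mul_sum]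
    refine Finset.sum_congr rfl fun b _ => ?_
    rw [hFW]
    by_cases hb : b ^ 2 < (D : ℤ)
    · simp only [hb, if_true, Finset.mul_sum]
    · simp only [hb, if_false, mul_zero, Finset.sum_const_zero]
  rw [k1, Finset.sum_congr rfl k2, Finset.sum_add_distrib, k3, k4, sum_third D FW]
  set H : ℤ → ℤ := fun b => FU b - FV b - (if (3 : ℤ) ∣ b then FW (b / 3) else 0) with hH
  have k5 : 6 * ∑ b ∈ Ioo (-((3 * D : ℕ) : ℤ)) ((3 * D : ℕ) : ℤ), FU b -
      (6 * ∑ b ∈ Ioo (-((3 * D : ℕ) : ℤ)) ((3 * D : ℕ) : ℤ), FV b +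
        6 * ∑ b ∈ Ioo (-((3 * D : ℕ) : ℤ)) ((3 * D : ℕ) : ℤ),
          (if (3 : ℤ) ∣ b then FW (b / 3) else 0)) =
      6 * ∑ b ∈ Ioo (-((3 * D : ℕ) : ℤ)) ((3 * D : ℕ) : ℤ), H b := by
    rw [hH, Finset.sum_sub_distrib, Finset.sum_sub_distrib]
    ring
  have hodd : ∀ x : ℕ, x % 2 = 1 → ∀ n1 : ℕ, loc n1 x = 0 := fun x hx n1 =>
    loc_zero_2 (fact_two_odd hx)
  rw [k5, sum_symm (3 * D) H]
  rotate_left
  · intro b
    rw [hH]
    have e : (-b) ^ 2 = b ^ 2 := by ring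
    by_cases h : (3 : ℤ) ∣ b
    · have h' : (3 : ℤ) ∣ -b := by rwa [dvd_neg]
      obtain ⟨c, rfl⟩ := h
      have e1 : -(3 * c) / 3 = -c := by
        rw [show -(3 * c) = 3 * (-c) by ring, Int.mul_ediv_cancel_left _ (by norm_num)]
      have e2 : 3 * c / 3 = c := Int.mul_ediv_cancel_left _ (by norm_num)
      have e3 : (-c) ^ 2 = c ^ 2 := by ring
      simp only [hFU, hFV, hFW, e, h', if_true, e1, e2, e3, dvd_mul_right]
    · have h' : ¬ (3 : ℤ) ∣ -b := by rwa [dvd_neg]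
      simp only [hFU, hFV, e, h', h, if_false]
  · have h9 : ((9 * D : ℕ) : ℤ).toNat % 2 = 1 := by omega
    have h1 : ((D : ℕ) : ℤ).toNat % 2 = 1 := by omega
    have z1 : FU 0 = 0 := by
      rw [hFU]
      simp only [ne_eq, OfNat.ofNat_ne_zero, not_false_eq_true, zero_pow, sub_zero]
      split_ifs
      · exact Finset.sum_eq_zero fun d _ => hodd _ h9 _
      · rfl
    have z2 : FV 0 = 0 := by
      rw [hFV]
      simp only [ne_eq, OfNat.ofNat_ne_zero, not_false_eq_true, zero_pow, sub_zero]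
      split_ifs
      · exact Finset.sum_eq_zero fun d _ => hodd _ h9 _
      · rfl
    have z3 : FW 0 = 0 := by
      rw [hFW]
      simp only [ne_eq, OfNat.ofNat_ne_zero, not_false_eq_true, zero_pow, sub_zero]
      split_ifs
      · exact Finset.sum_eq_zero fun d _ => by rw [hodd _ h1, mul_zero]
      · rfl
    rw [hH]
    simp only [z1, z2, dvd_zero, if_true, EuclideanDomain.zero_div, z3, sub_zero]
  have hdiv : (2 : ℤ) ^ D.primeFactors.card ∣
      ∑ b ∈ Ioo (0 : ℤ) ((3 * D : ℕ) : ℤ), H b := by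
    refine Finset.dvd_sum fun b _ => ?_
    by_cases h3b : (3 : ℤ) ∣ b
    · obtain ⟨c, rfl⟩ := h3b
      have e2 : 3 * c / 3 = c := Int.mul_ediv_cancel_left _ (by norm_num)
      have hH' : H (3 * c) = FU (3 * c) - FV (3 * c) - FW c := by
        rw [hH]
        simp only [if_true, dvd_mul_right, e2]
      rw [hH']
      by_cases hb : c ^ 2 < (D : ℤ)
      · have hb' : (3 * c) ^ 2 < ((9 * D : ℕ) : ℤ) := by push_cast; linarith
        set E := ((D : ℤ) - c ^ 2).toNat with hE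
        have hEE : (E : ℤ) = D - c ^ 2 := Int.toNat_of_nonneg (by linarith)
        have hE0 : E ≠ 0 := by omega
        have e9 : (((9 * D : ℕ) : ℤ) - (3 * c) ^ 2).toNat = 9 * E := by
          have : ((9 * D : ℕ) : ℤ) - (3 * c) ^ 2 = ((9 * E : ℕ) : ℤ) := by
            push_cast
            rw [hEE]
            ring
          rw [this, Int.toNat_natCast]
        have u1 : FU (3 * c) = ∑ d ∈ F1, loc (3 * d) (9 * E) := by
          rw [hFU]; simp only [hb', if_true, e9]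
        have u2 : FV (3 * c) = ∑ d ∈ F3, loc d (9 * E) := by
          rw [hFV]; simp only [hb', if_true, e9]
        have u3 : FW c = ∑ d ∈ F3, jacobiSym (-(d : ℤ)) 3 * loc d E := by
          rw [hFW]; simp only [hb, if_true]; rfl
        rw [u1, u2, u3]
        exact div_B hs h2 h3 hE0
          (fun l hl _ l3 _ hlD => hy7_nine (b := 3 * c) hs (Nat.mul_ne_zero (by norm_num) hE0)
            (by push_cast; rw [hEE]; ring) hl l3 hlD)
          (fun l hl _ _ _ hlD => hy7_one (b := c) hs hE0 hEE hl hlD)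
      · have hb' : ¬ (3 * c) ^ 2 < ((9 * D : ℕ) : ℤ) := by push_cast; linarith
        have u1 : FU (3 * c) = 0 := by rw [hFU]; simp only [hb', if_false]
        have u2 : FV (3 * c) = 0 := by rw [hFV]; simp only [hb', if_false]
        have u3 : FW c = 0 := by rw [hFW]; simp only [hb, if_false]
        rw [u1, u2, u3]
        simp
    · have hH' : H b = FU b - FV b := by
        rw [hH]
        simp only [h3b, if_false, sub_zero]
      rw [hH']
      by_cases hb : b ^ 2 < ((9 * D : ℕ) : ℤ)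
      · set E := (((9 * D : ℕ) : ℤ) - b ^ 2).toNat with hE
        have hEE : (E : ℤ) = ((9 * D : ℕ) : ℤ) - b ^ 2 := Int.toNat_of_nonneg (by linarith)
        have hEE' : (E : ℤ) = 9 * D - b ^ 2 := by rw [hEE]; push_cast; ring
        have hE0 : E ≠ 0 := by omega
        have u1 : FU b = ∑ d ∈ F1, loc (3 * d) E := by
          rw [hFU]; simp only [hb, if_true]; rfl
        have u2 : FV b = ∑ d ∈ F3, loc d E := by
          rw [hFV]; simp only [hb, if_true]; rfl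
        rw [u1, u2]
        refine div_A hs h2 hE0
          (fun l hl _ l3 _ hlD => hy7_nine (b := b) hs hE0 hEE' hl l3 hlD) ?_
          (fun _ h => absurd h h3)
        intro h
        apply h3b
        have h5 : (3 : ℤ) ∣ b ^ 2 := by
          have : (3 : ℤ) ∣ (E : ℤ) := by exact_mod_cast h
          have e : b ^ 2 = 9 * D - E := by rw [hEE']; ring
          rw [e]
          exact dvd_sub ⟨3 * D, by ring⟩ this
        exact Int.prime_three.dvd_of_dvd_pow h5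
      · have u1 : FU b = 0 := by rw [hFU]; simp only [hb, if_false]
        have u2 : FV b = 0 := by rw [hFV]; simp only [hb, if_false]
        rw [u1, u2]
        simp
  obtain ⟨c, hc⟩ := hdiv
  rw [hc]
  exact ⟨3 * c, by rw [pow_add]; ring⟩

end Pool.Agent.N871.P17
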