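import Pool.Agent.N871.P17.Fam

/-!
# The divisibility statements `S_U1E` and `S_U3E` of the project P17
-/

set_option autoImplicit false

namespace Pool.Agent.N871.Q17

open Finset
open Pool.Agent.Z700 (hh fac)
open Pool.Agent.N969.P15 (V3 tw)
open Pool.Agent.N871.P15
open Pool.Agent.N871.P17 (SS_loc sum_third rr_mul SS_symm nsq)
open Pool.Agent.N972.P17

/-- the odd part of a squarefree number `≡ 2, 3 mod 4` -/
theorem split_M {M : ℕ} (hs : Squarefree M) (h4 : M % 4 = 2 ∨ M % 4 = 3) :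
    ∃ q m : ℕ, (q = 1 ∨ q = 2) ∧ M = q * m ∧ Squarefree m ∧ ¬ 2 ∣ m ∧
      (4 * M).primeFactors.card = m.primeFactors.card + 1 := by
  have h42 : (4 : ℕ).primeFactors = {2} := by
    have : (4 : ℕ) = 2 ^ 2 := by norm_num
    rw [this, Nat.primeFactors_prime_pow (by norm_num) Nat.prime_two]
  rcases h4 with h4 | h4
  · obtain ⟨m, rfl⟩ : 2 ∣ M := by omega
    have h2m : ¬ 2 ∣ m := by omega
    have hm0 : m ≠ 0 := by omega
    refine ⟨2, m, Or.inr rfl, rfl, hs.squarefree_of_dvd (Dvd.intro_left _ rfl), h2m, ?_⟩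
    rw [Nat.primeFactors_mul (by norm_num) (by omega), Nat.primeFactors_mul (by norm_num) hm0,
      h42, Nat.prime_two.primeFactors, ← Finset.union_assoc, Finset.union_self,
      ← Finset.insert_eq, Finset.card_insert_of_notMem]
    intro h
    exact h2m (Nat.dvd_of_mem_primeFactors h)
  · have h2m : ¬ 2 ∣ M := by omega
    refine ⟨1, M, Or.inl rfl, (one_mul M).symm, hs, h2m, ?_⟩
    rw [Nat.primeFactors_mul (by norm_num) (by omega), h42, ← Finset.insert_eq,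
      Finset.card_insert_of_notMem]
    intro h
    exact h2m (Nat.dvd_of_mem_primeFactors h)

/-- the odd divisors -/
theorem odd_divisors {q m r : ℕ} (hq : q = 1 ∨ q = 2) (hm : m ≠ 0) (hr : r % 2 = 1) :
    (q * m).divisors.filter (fun d => d % 4 = r) = m.divisors.filter (fun d => d % 4 = r) := by
  ext d
  rw [Finset.mem_filter, Finset.mem_filter, Nat.mem_divisors, Nat.mem_divisors]
  constructor
  · rintro ⟨⟨h1, -⟩, h2⟩
    refine ⟨⟨?_, hm⟩, h2⟩
    rcases hq with rfl | rfl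
    · rwa [one_mul] at h1
    · refine Nat.Coprime.dvd_of_dvd_mul_left ?_ h1
      rw [Nat.coprime_comm, Nat.Prime.coprime_iff_not_dvd Nat.prime_two]
      omega
  · rintro ⟨⟨h1, -⟩, h2⟩
    refine ⟨⟨Dvd.dvd.mul_left h1 q, Nat.mul_ne_zero (by omega) hm⟩, h2⟩

theorem q_facts {q s : ℕ} (hq : B217 q) (hs : B217 s) {m : ℕ} :
    ∀ l : ℕ, l.Prime → l ≠ 2 → l ≠ 17 → l ∣ m → Qr q (s ^ 2 * q) l :=
  fun l hl l2 l17 _ => Qr.sq hl (hq l hl l2 l17) (hs l hl l2 l17)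

theorem b_of {q : ℕ} (hq : q = 1 ∨ q = 2) : B217 q := by
  rcases hq with rfl | rfl
  · exact B217.one
  · exact B217.two

theorem nsq4 {M : ℕ} (hs : Squarefree M) (hM : 1 < M) (b : ℤ) : b ^ 2 ≠ ((4 * M : ℕ) : ℤ) := by
  intro hb
  have h2 : (2 : ℤ) ∣ b := by
    have : (2 : ℤ) ∣ b ^ 2 := ⟨2 * M, by rw [hb]; push_cast; ring⟩
    exact Int.prime_two.dvd_of_dvd_pow this
  obtain ⟨c, rfl⟩ := h2
  refine nsq hs hM c ?_
  push_cast at hb
  linarith

theorem not17 {M : ℕ} (h : jacobiSym M 17 = 1) : ¬ 17 ∣ M := by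
  rintro ⟨c, rfl⟩
  have : jacobiSym ((17 * c : ℕ) : ℤ) 17 = 0 := by
    rw [jacobiSym.mod_left]
    have : ((17 * c : ℕ) : ℤ) % (17 : ℕ) = 0 := by push_cast; omega
    rw [this]
    norm_num
  rw [this] at h
  exact absurd h (by norm_num)

theorem z4 {M : ℕ} (h : ¬ 17 ∣ M) : Z0 (4 * M) := by
  left
  rw [Nat.factorization_eq_zero_of_not_dvd]
  · exact Nat.not_odd_zero
  · intro h1
    rcases (Nat.Prime.dvd_mul (by norm_num : Nat.Prime 17)).1 h1 with h2 | h2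
    · exact absurd h2 (by norm_num)
    · exact h h2

/-- the complementary divisor -/
theorem div_mul {q m d : ℕ} (hd : d ∈ m.divisors) : q * m / d = q * (m / d) :=
  Nat.mul_div_assoc q (Nat.mem_divisors.1 hd).1

theorem t_U1E (hPC : S_PC) : S_U1E := by
  rintro M ⟨hs, h4, hj⟩
  have hM1 : 1 < M := by omega
  have h17M := not17 hj
  obtain ⟨q, m, hq, rfl, hm, h2, hcard⟩ := split_M hs h4
  have h17 : ¬ 17 ∣ m := fun h => h17M (Dvd.dvd.mul_left h q)
  have e4 : 4 * (q * m) = 2 ^ 2 * q * m := by ring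
  rw [hcard, odd_divisors hq hm.ne_zero rfl]
  have key := gen_U1 (q := q) (q' := 2 ^ 2 * q) hPC hm h2 h17 (b_of hq) (by omega)
    (q_facts (b_of hq) B217.two) (by rw [← e4]; omega) (by rw [← e4]; exact nsq4 hs hM1)
    (by rw [← e4]; exact z4 h17M)
  refine (congrArg ((2 : ℤ) ^ (m.primeFactors.card + 1) ∣ ·)
    (Finset.sum_congr rfl fun d hd => ?_)).mp key
  rw [div_mul (Finset.mem_filter.1 hd).1]
  congr 2
  ring

/-- the Kronecker symbol of the complementary divisor -/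
theorem jac_compl {M d : ℕ} (h3 : ¬ 3 ∣ M) (hd : d ∣ M) :
    jacobiSym (-((M / d : ℕ) : ℤ)) 3 = jacobiSym (-(M : ℤ)) 3 * c3 d := by
  obtain ⟨e, rfl⟩ := hd
  have hd3 : ¬ 3 ∣ d := fun h => h3 (Dvd.dvd.mul_right h e)
  have hd0 : 0 < d := Nat.pos_of_ne_zero fun h => hd3 (h ▸ dvd_zero 3)
  rw [Nat.mul_div_cancel_left _ hd0]
  have h1 : c3 d * c3 d = 1 := by
    rcases c3_sg hd3 with h | h <;> rw [h] <;> norm_num
  have e1 : (-((d * e : ℕ) : ℤ)) = (d : ℤ) * (-(e : ℤ)) := by push_cast; ring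
  rw [e1, jacobiSym.mul_left]
  have e2 : jacobiSym (d : ℤ) 3 = c3 d := rfl
  rw [e2]
  linear_combination (-jacobiSym (-(e : ℤ)) 3) * h1

theorem jac3_sg {M : ℕ} (h3 : ¬ 3 ∣ M) : Sg (jacobiSym (-(M : ℤ)) 3) := by
  rw [jacobiSym.mod_left]
  have : (-(M : ℤ)) % (3 : ℕ) = 1 ∨ (-(M : ℤ)) % (3 : ℕ) = 2 := by omega
  rcases this with h | h <;> rw [h]
  · rw [jacobiSym.one_left]; exact Sg.one
  · have : jacobiSym 2 3 = -1 := by norm_num
    rw [this]; exact Sg.neg_one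

theorem t_U3E (hPC : S_PC) (hHE : S_HE3E) : S_U3E := by
  rintro M ⟨hs, h4, hj⟩ h3M
  have hM1 : 1 < M := by omega
  have h17M := not17 hj
  obtain ⟨q, m, hq, hqm, hm, h2, hcard⟩ := split_M hs h4
  have h17 : ¬ 17 ∣ m := fun h => h17M (hqm ▸ Dvd.dvd.mul_left h q)
  have h3 : ¬ 3 ∣ m := fun h => h3M (hqm ▸ Dvd.dvd.mul_left h q)
  have e4 : 4 * M = 2 ^ 2 * q * m := by rw [hqm]; ring
  have f1 : M.divisors.filter (fun d => d % 4 = 1) = m.divisors.filter (fun d => d % 4 = 1) := by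
    rw [hqm]; exact odd_divisors hq hm.ne_zero rfl
  have f3 : M.divisors.filter (fun d => d % 4 = 3) = m.divisors.filter (fun d => d % 4 = 3) := by
    rw [hqm]; exact odd_divisors hq hm.ne_zero rfl
  rw [hcard, f1, f3]
  have key := gen_U3 (q := q) (q' := 2 ^ 2 * q) hPC hm h2 h3 h17 (b_of hq) (by omega)
    (q_facts (b_of hq) B217.two) (by rw [← e4]; omega) (by rw [← e4]; exact nsq4 hs hM1)
    (by rw [← e4]; exact z4 h17M) (by omega) (jac3_sg h3M)
  have g1 : ∑ d ∈ m.divisors.filter (fun d => d % 4 = 1),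
      SS (3 * d : ℕ) (3 * (4 * (M / d)) : ℕ) = ∑ d ∈ m.divisors.filter (fun d => d % 4 = 1),
        SS (3 * d : ℕ) (3 * (2 ^ 2 * q * (m / d)) : ℕ) := by
    refine Finset.sum_congr rfl fun d hd => ?_
    rw [hqm, div_mul (Finset.mem_filter.1 hd).1]
    congr 2
    ring
  have g3 : ∑ d ∈ m.divisors.filter (fun d => d % 4 = 3),
      rr (d : ℕ) * rr (4 * (M / d) : ℕ) = ∑ d ∈ m.divisors.filter (fun d => d % 4 = 3),
        (SS (d : ℕ) (9 * (2 ^ 2 * q * (m / d)) : ℕ) +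
          jacobiSym (-(M : ℤ)) 3 * c3 d * SS (d : ℕ) (2 ^ 2 * q * (m / d) : ℕ)) := by
    refine Finset.sum_congr rfl fun d hd => ?_
    have hdm : d ∈ m.divisors := (Finset.mem_filter.1 hd).1
    have hdM : d ∣ M := by
      rw [hqm]
      exact Dvd.dvd.mul_left (Nat.mem_divisors.1 hdm).1 q
    have hcM : M / d ∣ M := Nat.div_dvd_of_dvd hdM
    obtain ⟨u1, u2⟩ := hHE (M / d) (fun h => h17M (h.trans hcM)) (fun h => h3M (h.trans hcM))
    have := rr_mul (a := ((d : ℕ) : ℤ)) u1 u2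
    have e5 : ((4 * (M / d) : ℕ) : ℤ) = 4 * ((M / d : ℕ) : ℤ) := by push_cast; ring
    have e6 : 2 ^ 2 * q * (m / d) = 4 * (M / d) := by
      rw [hqm, div_mul hdm]
      ring
    have e7 : ((9 * (4 * (M / d)) : ℕ) : ℤ) = 9 * (4 * ((M / d : ℕ) : ℤ)) := by push_cast; ring
    rw [e6, e7, e5, this, jac_compl h3M hdM]
  rw [g1, g3]
  exact key

end Pool.Agent.N871.Q17
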