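import Pool.Agent.N871.P17.Loc
import Pool.Agent.N972.P17.Defs

/-!
# Divisibility of the sums of local densities over the divisors, level 17
-/

set_option autoImplicit false

namespace Pool.Agent.N871.P17

open Finset
open Pool.Agent.Z700 (hh fac)
open Pool.Agent.N969.P15 (tw)
open Pool.Agent.N871.P15
open Pool.Agent.N972.P17

/-- the primes dividing `D` other than `2, 3, 17` -/
def T7 (D : ℕ) : Finset ℕ := ((D.primeFactors.erase 2).erase 3).erase 17

theorem mem_T7 {D l : ℕ} (h : l ∈ T7 D) : l.Prime ∧ l ≠ 2 ∧ l ≠ 3 ∧ l ≠ 17 ∧ l ∣ D := by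
  unfold T7 at h
  simp only [Finset.mem_erase, Nat.mem_primeFactors] at h
  exact ⟨h.2.2.2.1, h.2.2.1, h.2.1, h.1, h.2.2.2.2.1⟩

theorem OT7 (D : ℕ) : OT (T7 D) := fun _ hl =>
  ⟨(mem_T7 hl).1, (mem_T7 hl).2.1, (mem_T7 hl).2.2.1⟩

/-- the factor at `3` is separated -/
theorem loc_split {n1 D : ℕ} (hD : D ≠ 0) (h17 : Odd (D.factorization 17)) :
    loc n1 D = (if 3 ∣ D then fac n1 D 3 else 1) *
      (tw n1 D * ∏ l ∈ T7 D, fac n1 D l) := by
  unfold loc
  rw [if_pos h17]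
  by_cases h3 : 3 ∣ D
  · have h3' : 3 ∈ (D.primeFactors.erase 2).erase 17 := by
      simp only [Finset.mem_erase, Nat.mem_primeFactors]
      exact ⟨by norm_num, by norm_num, Nat.prime_three, h3, hD⟩
    rw [if_pos h3, ← Finset.mul_prod_erase _ _ h3']
    have e : ((D.primeFactors.erase 2).erase 17).erase 3 = T7 D := Finset.erase_right_comm
    rw [e]
    ring
  · have h3' : 3 ∉ D.primeFactors.erase 2 := by
      simp only [Finset.mem_erase, Nat.mem_primeFactors]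
      tauto
    have e : T7 D = (D.primeFactors.erase 2).erase 17 := by
      unfold T7
      rw [Finset.erase_eq_of_notMem h3']
    rw [if_neg h3, e, one_mul]

theorem loc_zero_2 {n1 D : ℕ} (h : ¬ 2 ≤ D.factorization 2) : loc n1 D = 0 := by
  unfold loc tw
  have : D.factorization 2 - 1 = 0 := by omega
  rw [this, Finset.sum_range_zero, zero_mul]
  split_ifs <;> rfl

theorem loc_zero_17 {n1 D : ℕ} (h : ¬ Odd (D.factorization 17)) : loc n1 D = 0 := by
  unfold loc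
  rw [if_neg h]

/-- the conditions at the common primes -/
def Hy7 (m D : ℕ) : Prop := ∀ l : ℕ, l.Prime → l ≠ 2 → l ≠ 3 → l ≠ 17 → l ∣ D → Hl m D l

/-- `loc` for `d ≡ 3 mod 4` -/
theorem loc_1 {m D : ℕ} (hy : Hy7 m D) (hy3 : 3 ∣ D → Hl m D 3) (hD : D ≠ 0)
    (h2 : 2 ≤ D.factorization 2) (h17 : Odd (D.factorization 17)) {S : Finset ℕ}
    (hS : S ∈ m.primeFactors.powerset) (h4 : (∏ p ∈ S, p) % 4 = 3) :
    loc (∏ p ∈ S, p) D =
      (∑ j ∈ range (D.factorization 3 + 1), (-1 * ∏ p ∈ S, ee 1 m 3 p) ^ j) *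
        YT m 1 D (T7 D) 1 S := by
  rw [loc_split hD h17, rest_1 (OT7 D) (fun l hl => hy l (mem_T7 hl).1 (mem_T7 hl).2.1
    (mem_T7 hl).2.2.1 (mem_T7 hl).2.2.2.1 (mem_T7 hl).2.2.2.2) h2 hS h4]
  congr 1
  by_cases h3 : 3 ∣ D
  · rw [if_pos h3]
    have := fac_char' (a := 1) Nat.prime_three (by norm_num) (hy3 h3) (Finset.mem_powerset.1 hS)
    rw [one_mul] at this
    rw [this]
    have e : jacobiSym (-((1 : ℕ) : ℤ)) 3 = -1 := by norm_num
    rw [e]
  · rw [if_neg h3, Nat.factorization_eq_zero_of_not_dvd h3, zero_add, Finset.sum_range_one,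
      pow_zero]

/-- `loc` for `3 d`, `d ≡ 1 mod 4` -/
theorem loc_3 {m D : ℕ} (hy : Hy7 m D) (hD : D ≠ 0)
    (h2 : 2 ≤ D.factorization 2) (h17 : Odd (D.factorization 17)) {S : Finset ℕ}
    (hS : S ∈ m.primeFactors.powerset) (h4 : (∏ p ∈ S, p) % 4 = 1) :
    loc (3 * ∏ p ∈ S, p) D = (if 3 ∣ D then fac (3 * ∏ p ∈ S, p) D 3 else 1) *
        YT m 3 D (T7 D) (-1) S := by
  rw [loc_split hD h17, rest_3 (OT7 D) (fun l hl => hy l (mem_T7 hl).1 (mem_T7 hl).2.1
    (mem_T7 hl).2.2.1 (mem_T7 hl).2.2.2.1 (mem_T7 hl).2.2.2.2) h2 hS h4]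

/-- the divisibility of the sum over `d ≡ 3 mod 4` -/
theorem div_1 {m D : ℕ} (hm : Squarefree m) (h2 : ¬ 2 ∣ m) (hD : D ≠ 0) (hy : Hy7 m D)
    (hy3 : 3 ∣ D → Hl m D 3) :
    (2 : ℤ) ^ m.primeFactors.card ∣ 2 * ∑ d ∈ m.divisors.filter (fun d => d % 4 = 3), loc d D := by
  by_cases h22 : 2 ≤ D.factorization 2
  swap
  · rw [Finset.sum_eq_zero fun d _ => loc_zero_2 h22, mul_zero]
    exact dvd_zero _
  by_cases h17 : Odd (D.factorization 17)
  swap
  · rw [Finset.sum_eq_zero fun d _ => loc_zero_17 h17, mul_zero]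
    exact dvd_zero _
  have e : 2 * ∑ d ∈ m.divisors.filter (fun d => d % 4 = 3), loc d D =
      XT m 1 D (T7 D) (D.factorization 3) (-1) (-1) 1 1 false := by
    rw [sum_f3 hm h2 (fun d => loc d D) (fun S => (∑ j ∈ range (D.factorization 3 + 1),
      (-1 * ∏ p ∈ S, ee 1 m 3 p) ^ j) * YT m 1 D (T7 D) 1 S)
      fun S hS h4 => loc_1 hy hy3 hD h22 h17 hS h4]
    unfold XT
    refine Finset.sum_congr rfl fun S _ => ?_
    have : ∏ p ∈ S, wt false m p = 1 := Finset.prod_eq_one fun p _ => rfl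
    rw [this]
    ring
  rw [e]
  exact XT_dvd (OT7 D) hm h2 _ _ _ _ _ _

/-- `b` prime to `3` -/
theorem div_A {m D : ℕ} (hm : Squarefree m) (h2 : ¬ 2 ∣ m) (hD : D ≠ 0)
    (hy : Hy7 m D) (h3D : ¬ 3 ∣ D) (hy3 : 3 ∣ D → Hl m D 3) :
    (2 : ℤ) ^ m.primeFactors.card ∣
      ∑ d ∈ m.divisors.filter (fun d => d % 4 = 1), loc (3 * d) D -
        ∑ d ∈ m.divisors.filter (fun d => d % 4 = 3), loc d D := by
  by_cases h22 : 2 ≤ D.factorization 2
  swap
  · rw [Finset.sum_eq_zero fun d _ => loc_zero_2 h22, Finset.sum_eq_zero fun d _ =>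
      loc_zero_2 h22, sub_zero]
    exact dvd_zero _
  by_cases h17 : Odd (D.factorization 17)
  swap
  · rw [Finset.sum_eq_zero fun d _ => loc_zero_17 h17, Finset.sum_eq_zero fun d _ =>
      loc_zero_17 h17, sub_zero]
    exact dvd_zero _
  have hf : D.factorization 3 = 0 := Nat.factorization_eq_zero_of_not_dvd h3D
  have e1 : 2 * ∑ d ∈ m.divisors.filter (fun d => d % 4 = 3), loc d D =
      XT m 1 D (T7 D) 0 (-1) 1 1 1 false := by
    rw [sum_f3 hm h2 (fun d => loc d D) (fun S => YT m 1 D (T7 D) 1 S)]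
    · unfold XT
      refine Finset.sum_congr rfl fun S _ => ?_
      have : ∏ p ∈ S, wt false m p = 1 := Finset.prod_eq_one fun p _ => rfl
      rw [this, zero_add, Finset.sum_range_one, pow_zero]
      ring
    · intro S hS h4
      rw [loc_1 hy hy3 hD h22 h17 hS h4, hf, zero_add, Finset.sum_range_one, pow_zero, one_mul]
  have e3 : 2 * ∑ d ∈ m.divisors.filter (fun d => d % 4 = 1), loc (3 * d) D =
      XT m 3 D (T7 D) 0 1 1 (-1) 1 false := by
    rw [sum_filter_1 hm h2 (fun d => loc (3 * d) D) (fun S => YT m 3 D (T7 D) (-1) S)]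
    · unfold XT
      refine Finset.sum_congr rfl fun S _ => ?_
      have : ∏ p ∈ S, wt false m p = 1 := Finset.prod_eq_one fun p _ => rfl
      rw [this, zero_add, Finset.sum_range_one, pow_zero]
      ring
    · intro S hS h4
      rw [loc_3 hy hD h22 h17 hS h4, if_neg h3D, one_mul]
  apply pow_dvd_of_two
  rw [mul_sub, e1, e3]
  exact XT_sub (OT7 D) hm h2 (Or.inr rfl) (Or.inl rfl) 0 Sg.one Sg.one Sg.neg_one Sg.one
    Sg.neg_one Sg.one Sg.one Sg.one false

theorem T7_nine {E : ℕ} (hE : E ≠ 0) : T7 (9 * E) = T7 E := by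
  unfold T7
  rw [Nat.primeFactors_mul (by norm_num) hE]
  have : (9 : ℕ).primeFactors = {3} := by
    have : (9 : ℕ) = 3 ^ 2 := by norm_num
    rw [this, Nat.primeFactors_prime_pow (by norm_num) Nat.prime_three]
  rw [this]
  ext x
  simp only [Finset.mem_erase, Finset.mem_union, Finset.mem_singleton]
  tauto

theorem YT_nine {m E a : ℕ} {s2 : ℤ} {S : Finset ℕ} (hE : E ≠ 0) :
    YT m a (9 * E) (T7 (9 * E)) s2 S = YT m a E (T7 E) s2 S := by
  unfold YT
  rw [fact_nine hE (by norm_num), T7_nine hE]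
  congr 1
  refine Finset.prod_congr rfl fun l hl => ?_
  rw [fact_nine hE (mem_T7 hl).2.2.1]

theorem sg_geo {x : ℤ} (hx : Sg x) (v : ℕ) :
    ∑ j ∈ range (v + 2 + 1), x ^ j + x * ∑ j ∈ range (v + 1), x ^ j =
      1 + x ^ v + 2 * (x * ∑ j ∈ range (v + 1), x ^ j) := by
  have h2 : x ^ 2 = 1 := by rcases hx with rfl | rfl <;> norm_num
  rw [Finset.sum_range_succ, Finset.sum_range_succ', pow_zero, pow_add, h2]
  have : ∑ j ∈ range (v + 1), x ^ (j + 1) = x * ∑ j ∈ range (v + 1), x ^ j := by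
    rw [Finset.mul_sum]
    refine Finset.sum_congr rfl fun j _ => ?_
    rw [pow_succ']
  rw [this]
  ring

/-- `b` divisible by `3` -/
theorem div_B {m E : ℕ} (hm : Squarefree m) (h2 : ¬ 2 ∣ m) (h3 : ¬ 3 ∣ m) (hE : E ≠ 0)
    (hy9 : Hy7 m (9 * E)) (hy : Hy7 m E) :
    (2 : ℤ) ^ m.primeFactors.card ∣
      ∑ d ∈ m.divisors.filter (fun d => d % 4 = 1), loc (3 * d) (9 * E) -
        ∑ d ∈ m.divisors.filter (fun d => d % 4 = 3), loc d (9 * E) -
        ∑ d ∈ m.divisors.filter (fun d => d % 4 = 3), jacobiSym (-(d : ℤ)) 3 * loc d E := by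
  have hE9 : 9 * E ≠ 0 := Nat.mul_ne_zero (by norm_num) hE
  have hl3 : ∀ D : ℕ, 3 ∣ D → Hl m D 3 := fun D _ h => absurd h h3
  by_cases h22 : 2 ≤ E.factorization 2
  swap
  · have h22' : ¬ 2 ≤ (9 * E).factorization 2 := by rw [fact_nine hE (by norm_num)]; exact h22
    rw [Finset.sum_eq_zero fun d _ => loc_zero_2 h22', Finset.sum_eq_zero fun d _ =>
      loc_zero_2 h22', Finset.sum_eq_zero fun d _ => by rw [loc_zero_2 h22, mul_zero]]
    simp
  by_cases h17 : Odd (E.factorization 17)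
  swap
  · have h17' : ¬ Odd ((9 * E).factorization 17) := by
      rw [fact_nine hE (by norm_num)]; exact h17
    rw [Finset.sum_eq_zero fun d _ => loc_zero_17 h17', Finset.sum_eq_zero fun d _ =>
      loc_zero_17 h17', Finset.sum_eq_zero fun d _ => by rw [loc_zero_17 h17, mul_zero]]
    simp
  have h22' : 2 ≤ (9 * E).factorization 2 := by rw [fact_nine hE (by norm_num)]; exact h22
  have h17' : Odd ((9 * E).factorization 17) := by rw [fact_nine hE (by norm_num)]; exact h17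
  set v := E.factorization 3 with hv
  have hv9 : (9 * E).factorization 3 = v + 2 := fact_nine_three hE
  have hns : ∀ S ∈ m.primeFactors.powerset, Sg (-1 * ∏ p ∈ S, ee 1 m 3 p) := by
    intro S hS
    refine Sg.neg_one.mul (Sg.prod _ _ fun p hp => ee_sg hm Nat.prime_three ?_)
    exact Finset.mem_powerset.1 hS hp
  -- the sum of the two families over `d ≡ 3 mod 4`
  have e1 : 2 * (∑ d ∈ m.divisors.filter (fun d => d % 4 = 3), loc d (9 * E) +
        ∑ d ∈ m.divisors.filter (fun d => d % 4 = 3), jacobiSym (-(d : ℤ)) 3 * loc d E) =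
      ∑ S ∈ m.primeFactors.powerset, (1 + (-1) * c4 (∏ p ∈ S, p)) *
        ((1 + (-1 * ∏ p ∈ S, ee 1 m 3 p) ^ v) * YT m 1 E (T7 E) 1 S) +
      2 * XT m 1 E (T7 E) v (-1) (-1) 1 (-1) true := by
    rw [← Finset.sum_add_distrib, sum_f3 hm h2
      (fun d => loc d (9 * E) + jacobiSym (-(d : ℤ)) 3 * loc d E)
      (fun S => (1 + (-1 * ∏ p ∈ S, ee 1 m 3 p) ^ v) * YT m 1 E (T7 E) 1 S +
        2 * ((-1 * ∏ p ∈ S, ee 1 m 3 p) * (∑ j ∈ range (v + 1),
          (-1 * ∏ p ∈ S, ee 1 m 3 p) ^ j) * YT m 1 E (T7 E) 1 S))]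
    · unfold XT
      rw [Finset.mul_sum, ← Finset.sum_add_distrib]
      refine Finset.sum_congr rfl fun S _ => ?_
      have : ∏ p ∈ S, wt true m p = ∏ p ∈ S, ee 1 m 3 p := Finset.prod_congr rfl fun p _ => rfl
      rw [this]
      ring
    · intro S hS h4
      rw [loc_1 hy9 (hl3 _) hE9 h22' h17' hS h4, loc_1 hy (hl3 _) hE h22 h17 hS h4, hv9,
        YT_nine hE]
      have ej : jacobiSym (-((∏ p ∈ S, p : ℕ) : ℤ)) 3 = -1 * ∏ p ∈ S, ee 1 m 3 p := by
        rw [ee_three h3 hS, c3]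
        have : (-((∏ p ∈ S, p : ℕ) : ℤ)) = (-1 : ℤ) * ((∏ p ∈ S, p : ℕ) : ℤ) := by ring
        rw [this, jacobiSym.mul_left]
        have : jacobiSym (-1) 3 = -1 := by norm_num
        rw [this]
      rw [ej]
      have := sg_geo (hns S hS) v
      calc _ = (∑ j ∈ range (v + 2 + 1), (-1 * ∏ p ∈ S, ee 1 m 3 p) ^ j +
            (-1 * ∏ p ∈ S, ee 1 m 3 p) * ∑ j ∈ range (v + 1),
              (-1 * ∏ p ∈ S, ee 1 m 3 p) ^ j) * YT m 1 E (T7 E) 1 S := by ring
        _ = _ := by rw [this]; ring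
  have hX : (2 : ℤ) ^ (m.primeFactors.card + 1) ∣
      2 * XT m 1 E (T7 E) v (-1) (-1) 1 (-1) true := by
    rw [pow_succ']
    exact mul_dvd_mul_left 2 (XT_dvd (OT7 E) hm h2 _ _ _ _ _ _)
  have h39 : 3 ∣ 9 * E := Dvd.dvd.mul_right (by norm_num) _
  set κ := jacobiSym (-(((9 * E) / 3 ^ (9 * E).factorization 3 : ℕ) : ℤ)) 3 with hκ
  have hκs : Sg κ := kap_sg hE9
  have hw : ∀ S : Finset ℕ, ∏ p ∈ S, wt false m p = 1 := fun S =>
    Finset.prod_eq_one fun p _ => rfl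
  apply pow_dvd_of_two
  by_cases hev : Even v
  · have hev' : Even ((9 * E).factorization 3) := by
      rw [hv9]; exact hev.add (by decide)
    have e2 : 2 * ∑ d ∈ m.divisors.filter (fun d => d % 4 = 1), loc (3 * d) (9 * E) =
        (1 + κ) * XT m 3 E (T7 E) 0 1 1 (-1) 1 false := by
      rw [sum_filter_1 hm h2 (fun d => loc (3 * d) (9 * E))
        (fun S => (1 + κ) * YT m 3 E (T7 E) (-1) S)]
      · unfold XT
        rw [Finset.mul_sum]
        refine Finset.sum_congr rfl fun S _ => ?_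
        rw [hw, zero_add, Finset.sum_range_one, pow_zero]
        ring
      · intro S hS h4
        rw [loc_3 hy9 hE9 h22' h17' hS h4, if_pos h39, fac_three_even hev', YT_nine hE]
    have e3 : ∑ S ∈ m.primeFactors.powerset, (1 + (-1) * c4 (∏ p ∈ S, p)) *
        ((1 + (-1 * ∏ p ∈ S, ee 1 m 3 p) ^ v) * YT m 1 E (T7 E) 1 S) =
        2 * XT m 1 E (T7 E) 0 (-1) 1 1 1 false := by
      unfold XT
      rw [Finset.mul_sum]
      refine Finset.sum_congr rfl fun S hS => ?_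
      have h1 : (-1 * ∏ p ∈ S, ee 1 m 3 p) ^ v = 1 := by
        obtain ⟨w, hw'⟩ := hev
        have h2' : (-1 * ∏ p ∈ S, ee 1 m 3 p) ^ 2 = 1 := by
          rcases hns S hS with h | h <;> rw [h] <;> norm_num
        rw [hw', ← two_mul, pow_mul, h2', one_pow]
      rw [hw, zero_add, Finset.sum_range_one, pow_zero, h1]
      ring
    have h5 : (2 : ℤ) ^ (m.primeFactors.card + 1) ∣
        (1 + κ) * XT m 3 E (T7 E) 0 1 1 (-1) 1 false := by
      rw [pow_succ']
      refine mul_dvd_mul ?_ (XT_dvd (OT7 E) hm h2 _ _ _ _ _ _)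
      rcases hκs with h | h <;> rw [h] <;> norm_num
    have h6 : (2 : ℤ) ^ (m.primeFactors.card + 1) ∣ 2 * XT m 1 E (T7 E) 0 (-1) 1 1 1 false := by
      rw [pow_succ']
      exact mul_dvd_mul_left 2 (XT_dvd (OT7 E) hm h2 _ _ _ _ _ _)
    have e4 : ∀ x y z : ℤ, 2 * (x - y - z) = 2 * x - 2 * (y + z) := fun x y z => by ring
    rw [e4, e1, e2, e3]
    exact dvd_sub h5 (dvd_add h6 hX)
  · have hev' : ¬ Even ((9 * E).factorization 3) := by
      rw [hv9]
      intro h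
      exact hev ((Nat.even_add.1 h).2 (by decide))
    have e2 : 2 * ∑ d ∈ m.divisors.filter (fun d => d % 4 = 1), loc (3 * d) (9 * E) =
        XT m 3 E (T7 E) 1 1 κ (-1) 1 false := by
      rw [sum_filter_1 hm h2 (fun d => loc (3 * d) (9 * E))
        (fun S => (1 + κ * ∏ p ∈ S, ee 1 m 3 p) * YT m 3 E (T7 E) (-1) S)]
      · unfold XT
        refine Finset.sum_congr rfl fun S _ => ?_
        rw [hw, Finset.sum_range_succ, Finset.sum_range_one, pow_zero, pow_one]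
        ring
      · intro S hS h4
        rw [loc_3 hy9 hE9 h22' h17' hS h4, if_pos h39, fac_three_odd hev', YT_nine hE,
          ee_three h3 hS]
    have e3 : ∑ S ∈ m.primeFactors.powerset, (1 + (-1) * c4 (∏ p ∈ S, p)) *
        ((1 + (-1 * ∏ p ∈ S, ee 1 m 3 p) ^ v) * YT m 1 E (T7 E) 1 S) =
        XT m 1 E (T7 E) 1 (-1) (-1) 1 1 false := by
      unfold XT
      refine Finset.sum_congr rfl fun S hS => ?_
      have h1 : (-1 * ∏ p ∈ S, ee 1 m 3 p) ^ v = -1 * ∏ p ∈ S, ee 1 m 3 p := by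
        obtain ⟨w, hw'⟩ := Nat.not_even_iff_odd.1 hev
        have h2' : (-1 * ∏ p ∈ S, ee 1 m 3 p) ^ 2 = 1 := by
          rcases hns S hS with h | h <;> rw [h] <;> norm_num
        rw [hw', pow_add, pow_mul, h2', one_pow, one_mul, pow_one]
      rw [hw, Finset.sum_range_succ, Finset.sum_range_one, pow_zero, pow_one, h1]
      ring
    have e4 : ∀ x y z : ℤ, 2 * (x - y - z) = 2 * x - 2 * (y + z) := fun x y z => by ring
    rw [e4, e1, e2, e3, ← sub_sub]
    exact dvd_sub (XT_sub (OT7 E) hm h2 (Or.inr rfl) (Or.inl rfl) 1 Sg.one hκs Sg.neg_one Sg.one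
      Sg.neg_one Sg.neg_one Sg.one Sg.one false) hX

end Pool.Agent.N871.P17
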