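import Pool.Agent.N871.P17.Loc2
import Pool.Agent.N972.P17.Defs3

/-!
# Divisibility of the sums of local densities over the divisors, level 17, general form

`pl n1 D` is the product of the local densities at all primes except `17`. For `m` odd squarefree,
`D` with `D / l ≡ q (m / l)` up to squares at the common primes `l`, and `a = 1` or `17`:
`div1`, `div1w`, `div3`, `divA`, `divB`.
-/

set_option autoImplicit false

namespace Pool.Agent.N871.Q17

open Finset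
open Pool.Agent.Z700 (hh fac)
open Pool.Agent.N969.P15 (tw)
open Pool.Agent.N871.P15
open Pool.Agent.N972.P17

/-- the product of the local densities at the primes other than `17` -/
def pl (n1 D : ℕ) : ℤ := tw n1 D * ∏ l ∈ (D.primeFactors.erase 2).erase 17, fac n1 D l

theorem loc_pl (n1 D : ℕ) : loc n1 D = if Odd (D.factorization 17) then pl n1 D else 0 := rfl

theorem locR_pl (n1 D : ℕ) : locR n1 D = if 17 ∣ D ∧ hh n1 D 17 = -1 then pl n1 D else 0 := rfl

/-- the primes dividing `D` other than `2, 3, 17` -/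
def T7 (D : ℕ) : Finset ℕ := ((D.primeFactors.erase 2).erase 3).erase 17

theorem mem_T7 {D l : ℕ} (h : l ∈ T7 D) : l.Prime ∧ l ≠ 2 ∧ l ≠ 3 ∧ l ≠ 17 ∧ l ∣ D := by
  unfold T7 at h
  simp only [Finset.mem_erase, Nat.mem_primeFactors] at h
  exact ⟨h.2.2.2.1, h.2.2.1, h.2.1, h.1, h.2.2.2.2.1⟩

theorem OT7 (D : ℕ) : OT (T7 D) := fun _ hl =>
  ⟨(mem_T7 hl).1, (mem_T7 hl).2.1, (mem_T7 hl).2.2.1, (mem_T7 hl).2.2.2.1⟩

/-- the factor at `3` is separated -/
theorem pl_split {n1 D : ℕ} (hD : D ≠ 0) :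
    pl n1 D = (if 3 ∣ D then fac n1 D 3 else 1) *
      (tw n1 D * ∏ l ∈ T7 D, fac n1 D l) := by
  unfold pl
  by_cases h3 : 3 ∣ D
  · have h3' : 3 ∈ (D.primeFactors.erase 2).erase 17 := by
      simp only [Finset.mem_erase, Nat.mem_primeFactors]
      exact ⟨by norm_num, by norm_num, Nat.prime_three, h3, hD⟩
    rw [if_pos h3, ← Finset.mul_prod_erase _ _ h3']
    have e : ((D.primeFactors.erase 2).erase 17).erase 3 = T7 D := Finset.erase_right_comm
    rw [e]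
    ring
  · have h3' : 3 ∉ D.primeFactors.erase 2 := by
      simp only [Finset.mem_erase, Nat.mem_primeFactors]
      tauto
    have e : T7 D = (D.primeFactors.erase 2).erase 17 := by
      unfold T7
      rw [Finset.erase_eq_of_notMem h3']
    rw [if_neg h3, e, one_mul]

theorem pl_zero_2 {n1 D : ℕ} (h : ¬ 2 ≤ D.factorization 2) : pl n1 D = 0 := by
  unfold pl tw
  have : D.factorization 2 - 1 = 0 := by omega
  rw [this, Finset.sum_range_zero, zero_mul]

/-- the conditions at the common primes -/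
def Hy7 (q m D : ℕ) : Prop :=
  ∀ l : ℕ, l.Prime → l ≠ 2 → l ≠ 3 → l ≠ 17 → l ∣ D → Hl q m D l

/-- `a` is `1` or `17` -/
def A17 (a : ℕ) : Prop := a = 1 ∨ a = 17

theorem A17.b {a : ℕ} (h : A17 a) : B217 a := by
  rcases h with rfl | rfl
  · exact B217.one
  · exact B217.seventeen

theorem A17.mod8 {a : ℕ} (h : A17 a) : a % 8 = 1 := by rcases h with rfl | rfl <;> rfl

theorem A17.not3 {a : ℕ} (h : A17 a) : ¬ 3 ∣ a := by
  rcases h with rfl | rfl <;> norm_num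

/-- the sign at `3` -/
def s3 (a : ℕ) : ℤ := jacobiSym (-(a : ℤ)) 3

theorem A17.s3_sg {a : ℕ} (h : A17 a) : Sg (s3 a) := by
  unfold s3
  rcases h with rfl | rfl
  · have : jacobiSym (-((1 : ℕ) : ℤ)) 3 = -1 := by norm_num
    rw [this]
    exact Sg.neg_one
  · have : jacobiSym (-((17 : ℕ) : ℤ)) 3 = 1 := by norm_num
    rw [this]
    exact Sg.one

section

variable {q m a D : ℕ}

/-- `pl` for `a d`, `d ≡ 3 mod 4` -/
theorem pl_1 (hA : A17 a) (hy : Hy7 q m D) (hy3 : 3 ∣ D → Hl q m D 3) (hD : D ≠ 0)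
    (h2 : 2 ≤ D.factorization 2) {S : Finset ℕ}
    (hS : S ∈ m.primeFactors.powerset) (h4 : (∏ p ∈ S, p) % 4 = 3) :
    pl (a * ∏ p ∈ S, p) D =
      (∑ j ∈ range (D.factorization 3 + 1), (s3 a * ∏ p ∈ S, ee q m 3 p) ^ j) *
        YT q m a D (T7 D) 1 S := by
  rw [pl_split hD, rest_1 (OT7 D) (Ap.of (OT7 D) hA.b) hA.mod8
    (fun l hl => hy l (mem_T7 hl).1 (mem_T7 hl).2.1
    (mem_T7 hl).2.2.1 (mem_T7 hl).2.2.2.1 (mem_T7 hl).2.2.2.2) h2 hS h4]
  congr 1
  by_cases h3 : 3 ∣ D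
  · rw [if_pos h3]
    exact fac_char' (a := a) Nat.prime_three hA.not3 (hy3 h3) (Finset.mem_powerset.1 hS)
  · rw [if_neg h3, Nat.factorization_eq_zero_of_not_dvd h3, zero_add, Finset.sum_range_one,
      pow_zero]

/-- `pl` for `3 a d`, `d ≡ 1 mod 4` -/
theorem pl_3 (hA : A17 a) (hy : Hy7 q m D) (hD : D ≠ 0)
    (h2 : 2 ≤ D.factorization 2) {S : Finset ℕ}
    (hS : S ∈ m.primeFactors.powerset) (h4 : (∏ p ∈ S, p) % 4 = 1) :
    pl (3 * a * ∏ p ∈ S, p) D = (if 3 ∣ D then fac (3 * a * ∏ p ∈ S, p) D 3 else 1) *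
        YT q m (3 * a) D (T7 D) (-1) S := by
  rw [pl_split hD, rest_3 (OT7 D) (Ap.three (OT7 D) hA.b) hA.mod8
    (fun l hl => hy l (mem_T7 hl).1 (mem_T7 hl).2.1
    (mem_T7 hl).2.2.1 (mem_T7 hl).2.2.2.1 (mem_T7 hl).2.2.2.2) h2 hS h4]

theorem prod_wt_false (q m : ℕ) (S : Finset ℕ) : ∏ p ∈ S, wt false q m p = 1 :=
  Finset.prod_eq_one fun _ _ => rfl

/-- the sum over `d ≡ 3 mod 4` as a sum over all subsets -/
theorem sum1 (hm : Squarefree m) (h2 : ¬ 2 ∣ m) (hA : A17 a) (hD : D ≠ 0)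
    (hy : Hy7 q m D) (hy3 : 3 ∣ D → Hl q m D 3) (h22 : 2 ≤ D.factorization 2) :
    2 * ∑ d ∈ m.divisors.filter (fun d => d % 4 = 3), pl (a * d) D =
      XT q m a D (T7 D) (D.factorization 3) (-1) (s3 a) 1 1 false := by
  rw [sum_f3 hm h2 (fun d => pl (a * d) D) (fun S => (∑ j ∈ range (D.factorization 3 + 1),
      (s3 a * ∏ p ∈ S, ee q m 3 p) ^ j) * YT q m a D (T7 D) 1 S)
      fun S hS h4 => pl_1 hA hy hy3 hD h22 hS h4]
  unfold XT
  refine Finset.sum_congr rfl fun S _ => ?_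
  rw [prod_wt_false]
  ring

/-- the divisibility of the sum over `d ≡ 3 mod 4` -/
theorem div1 (hm : Squarefree m) (h2 : ¬ 2 ∣ m) (hq : B217 q) (hA : A17 a) (hD : D ≠ 0)
    (hy : Hy7 q m D) (hy3 : 3 ∣ D → Hl q m D 3) :
    (2 : ℤ) ^ m.primeFactors.card ∣
      2 * ∑ d ∈ m.divisors.filter (fun d => d % 4 = 3), pl (a * d) D := by
  by_cases h22 : 2 ≤ D.factorization 2
  swap
  · rw [Finset.sum_eq_zero fun d _ => pl_zero_2 h22, mul_zero]
    exact dvd_zero _
  rw [sum1 hm h2 hA hD hy hy3 h22]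
  exact XT_dvd (OT7 D) hm h2 hq _ _ _ _ _ _

/-- the divisibility of the sum over `d ≡ 3 mod 4` with the character modulo `3` -/
theorem div1w (hm : Squarefree m) (h2 : ¬ 2 ∣ m) (h3 : ¬ 3 ∣ m) (hq : B217 q) (hA : A17 a)
    (hD : D ≠ 0) (hy : Hy7 q m D) :
    (2 : ℤ) ^ m.primeFactors.card ∣
      2 * ∑ d ∈ m.divisors.filter (fun d => d % 4 = 3), c3 d * pl (a * d) D := by
  by_cases h22 : 2 ≤ D.factorization 2
  swap
  · rw [Finset.sum_eq_zero fun d _ => by rw [pl_zero_2 h22, mul_zero], mul_zero]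
    exact dvd_zero _
  have e : 2 * ∑ d ∈ m.divisors.filter (fun d => d % 4 = 3), c3 d * pl (a * d) D =
      XT q m a D (T7 D) (D.factorization 3) (-1) (s3 a) 1 1 true := by
    rw [sum_f3 hm h2 (fun d => c3 d * pl (a * d) D) (fun S => (∏ p ∈ S, ee q m 3 p) *
      ((∑ j ∈ range (D.factorization 3 + 1),
      (s3 a * ∏ p ∈ S, ee q m 3 p) ^ j) * YT q m a D (T7 D) 1 S))
      fun S hS h4 => by
        rw [pl_1 hA hy (fun _ h => absurd h h3) hD h22 hS h4, ee_three h3 hS]]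
    unfold XT
    refine Finset.sum_congr rfl fun S _ => ?_
    have : ∏ p ∈ S, wt true q m p = ∏ p ∈ S, ee q m 3 p := Finset.prod_congr rfl fun p _ => rfl
    rw [this]
    ring
  rw [e]
  exact XT_dvd (OT7 D) hm h2 hq _ _ _ _ _ _

/-- the factor at `3`, even exponent -/
theorem fac3_even {n D : ℕ} (h3 : 3 ∣ n) (h : Even (D.factorization 3)) :
    fac n D 3 = 1 + jacobiSym (-((D / 3 ^ D.factorization 3 : ℕ) : ℤ)) 3 := by
  rw [fac, if_pos h3, hh, if_pos h]

/-- the factor at `3`, odd exponent -/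
theorem fac3_odd {a d D : ℕ} (h : ¬ Even (D.factorization 3)) :
    fac (3 * a * d) D 3 =
      1 + (jacobiSym (-((D / 3 ^ D.factorization 3 : ℕ) : ℤ)) 3 * c3 a) * c3 d := by
  rw [fac, if_pos ⟨a * d, by ring⟩, hh, if_neg h]
  congr 1
  rw [mul_assoc, Nat.mul_div_cancel_left _ (by norm_num : 0 < 3)]
  have e4 : (-((a * d * (D / 3 ^ D.factorization 3) : ℕ) : ℤ)) =
      (-((D / 3 ^ D.factorization 3 : ℕ) : ℤ)) * (a : ℤ) * (d : ℤ) := by
    push_cast; ring
  rw [e4, jacobiSym.mul_left, jacobiSym.mul_left, c3, c3]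

/-- the sum over `3 a d`, `d ≡ 1 mod 4`, exponent of `3` zero -/
theorem sum3_0 (hm : Squarefree m) (h2 : ¬ 2 ∣ m) (hA : A17 a) (hD : D ≠ 0)
    (hy : Hy7 q m D) (h3D : ¬ 3 ∣ D) (h22 : 2 ≤ D.factorization 2) :
    2 * ∑ d ∈ m.divisors.filter (fun d => d % 4 = 1), pl (3 * a * d) D =
      XT q m (3 * a) D (T7 D) 0 1 1 (-1) 1 false := by
  rw [sum_filter_1 hm h2 (fun d => pl (3 * a * d) D) (fun S => YT q m (3 * a) D (T7 D) (-1) S)]
  · unfold XT
    refine Finset.sum_congr rfl fun S _ => ?_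
    rw [prod_wt_false, zero_add, Finset.sum_range_one, pow_zero]
    ring
  · intro S hS h4
    rw [pl_3 hA hy hD h22 hS h4, if_neg h3D, one_mul]

/-- the sum over `3 a d`, `d ≡ 1 mod 4`, even positive exponent -/
theorem sum3_even (hm : Squarefree m) (h2 : ¬ 2 ∣ m) (hA : A17 a) (hD : D ≠ 0)
    (hy : Hy7 q m D) (h3D : 3 ∣ D) (h22 : 2 ≤ D.factorization 2)
    (hev : Even (D.factorization 3)) :
    2 * ∑ d ∈ m.divisors.filter (fun d => d % 4 = 1), pl (3 * a * d) D =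
      (1 + jacobiSym (-((D / 3 ^ D.factorization 3 : ℕ) : ℤ)) 3) *
        XT q m (3 * a) D (T7 D) 0 1 1 (-1) 1 false := by
  set κ := jacobiSym (-((D / 3 ^ D.factorization 3 : ℕ) : ℤ)) 3 with hκ
  rw [sum_filter_1 hm h2 (fun d => pl (3 * a * d) D)
    (fun S => (1 + κ) * YT q m (3 * a) D (T7 D) (-1) S)]
  · unfold XT
    rw [Finset.mul_sum]
    refine Finset.sum_congr rfl fun S _ => ?_
    rw [prod_wt_false, zero_add, Finset.sum_range_one, pow_zero]
    ring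
  · intro S hS h4
    rw [pl_3 hA hy hD h22 hS h4, if_pos h3D, fac3_even ⟨a * ∏ p ∈ S, p, by ring⟩ hev]

/-- the sum over `3 a d`, `d ≡ 1 mod 4`, odd exponent -/
theorem sum3_odd (hm : Squarefree m) (h2 : ¬ 2 ∣ m) (h3 : ¬ 3 ∣ m) (hA : A17 a) (hD : D ≠ 0)
    (hy : Hy7 q m D) (h3D : 3 ∣ D) (h22 : 2 ≤ D.factorization 2)
    (hev : ¬ Even (D.factorization 3)) :
    2 * ∑ d ∈ m.divisors.filter (fun d => d % 4 = 1), pl (3 * a * d) D =
      XT q m (3 * a) D (T7 D) 1 1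
        (jacobiSym (-((D / 3 ^ D.factorization 3 : ℕ) : ℤ)) 3 * c3 a) (-1) 1 false := by
  set κ := jacobiSym (-((D / 3 ^ D.factorization 3 : ℕ) : ℤ)) 3 * c3 a with hκ
  rw [sum_filter_1 hm h2 (fun d => pl (3 * a * d) D)
    (fun S => (1 + κ * ∏ p ∈ S, ee q m 3 p) * YT q m (3 * a) D (T7 D) (-1) S)]
  · unfold XT
    refine Finset.sum_congr rfl fun S _ => ?_
    rw [prod_wt_false, Finset.sum_range_succ, Finset.sum_range_one, pow_zero, pow_one]
    ring
  · intro S hS h4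
    rw [pl_3 hA hy hD h22 hS h4, if_pos h3D, fac3_odd hev, ee_three h3 hS]

/-- the divisibility of the sum over `3 a d`, `d ≡ 1 mod 4` -/
theorem div3 (hm : Squarefree m) (h2 : ¬ 2 ∣ m) (h3 : ¬ 3 ∣ m) (hq : B217 q) (hA : A17 a)
    (hD : D ≠ 0) (hy : Hy7 q m D) :
    (2 : ℤ) ^ m.primeFactors.card ∣
      2 * ∑ d ∈ m.divisors.filter (fun d => d % 4 = 1), pl (3 * a * d) D := by
  by_cases h22 : 2 ≤ D.factorization 2
  swap
  · rw [Finset.sum_eq_zero fun d _ => pl_zero_2 h22, mul_zero]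
    exact dvd_zero _
  by_cases h3D : 3 ∣ D
  · by_cases hev : Even (D.factorization 3)
    · rw [sum3_even hm h2 hA hD hy h3D h22 hev]
      exact Dvd.dvd.mul_left (XT_dvd (OT7 D) hm h2 hq _ _ _ _ _ _) _
    · rw [sum3_odd hm h2 h3 hA hD hy h3D h22 hev]
      exact XT_dvd (OT7 D) hm h2 hq _ _ _ _ _ _
  · rw [sum3_0 hm h2 hA hD hy h3D h22]
    exact XT_dvd (OT7 D) hm h2 hq _ _ _ _ _ _

/-- `D` prime to `3` -/
theorem divA (hm : Squarefree m) (h2 : ¬ 2 ∣ m) (hq : B217 q) (hA : A17 a) (hD : D ≠ 0)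
    (hy : Hy7 q m D) (h3D : ¬ 3 ∣ D) :
    (2 : ℤ) ^ m.primeFactors.card ∣
      ∑ d ∈ m.divisors.filter (fun d => d % 4 = 1), pl (3 * a * d) D -
        ∑ d ∈ m.divisors.filter (fun d => d % 4 = 3), pl (a * d) D := by
  by_cases h22 : 2 ≤ D.factorization 2
  swap
  · rw [Finset.sum_eq_zero fun d _ => pl_zero_2 h22, Finset.sum_eq_zero fun d _ =>
      pl_zero_2 h22, sub_zero]
    exact dvd_zero _
  have hf : D.factorization 3 = 0 := Nat.factorization_eq_zero_of_not_dvd h3D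
  have e1 : 2 * ∑ d ∈ m.divisors.filter (fun d => d % 4 = 3), pl (a * d) D =
      XT q m a D (T7 D) 0 (-1) 1 1 1 false := by
    rw [sum1 hm h2 hA hD hy (fun h => absurd h h3D) h22, hf]
    unfold XT
    refine Finset.sum_congr rfl fun S _ => ?_
    rw [zero_add, Finset.sum_range_one, Finset.sum_range_one, pow_zero, pow_zero]
  apply pow_dvd_of_two
  rw [mul_sub, e1, sum3_0 hm h2 hA hD hy h3D h22]
  exact XT_sub (OT7 D) hm h2 hq (Ap.three (OT7 D) hA.b) (Ap.of (OT7 D) hA.b) 0 Sg.one Sg.one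
    Sg.neg_one Sg.one Sg.neg_one Sg.one Sg.one Sg.one false

theorem T7_nine {E : ℕ} (hE : E ≠ 0) : T7 (9 * E) = T7 E := by
  unfold T7
  rw [Nat.primeFactors_mul (by norm_num) hE]
  have : (9 : ℕ).primeFactors = {3} := by
    have : (9 : ℕ) = 3 ^ 2 := by norm_num
    rw [this, Nat.primeFactors_prime_pow (by norm_num) Nat.prime_three]
  rw [this]
  ext x
  simp only [Finset.mem_erase, Finset.mem_union, Finset.mem_singleton]
  tauto

theorem YT_nine {E : ℕ} {s2 : ℤ} {S : Finset ℕ} (hE : E ≠ 0) :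
    YT q m a (9 * E) (T7 (9 * E)) s2 S = YT q m a E (T7 E) s2 S := by
  unfold YT
  rw [fact_nine hE (by norm_num), T7_nine hE]
  congr 1
  refine Finset.prod_congr rfl fun l hl => ?_
  rw [fact_nine hE (mem_T7 hl).2.2.1]

theorem XT_nine {E e3 : ℕ} {s4 s3 s2 c0 : ℤ} {w : Bool} (hE : E ≠ 0) :
    XT q m a (9 * E) (T7 (9 * E)) e3 s4 s3 s2 c0 w = XT q m a E (T7 E) e3 s4 s3 s2 c0 w := by
  unfold XT
  refine Finset.sum_congr rfl fun S _ => ?_
  rw [YT_nine hE]

/-- the geometric sums with the sign `k` -/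
theorem sg_geo' {x k : ℤ} (hx : Sg x) (v : ℕ) :
    ∑ j ∈ range (v + 2 + 1), x ^ j + k * x * ∑ j ∈ range (v + 1), x ^ j =
      1 + x ^ v + (1 + k) * (x * ∑ j ∈ range (v + 1), x ^ j) := by
  have h2 : x ^ 2 = 1 := by rcases hx with rfl | rfl <;> norm_num
  rw [Finset.sum_range_succ, Finset.sum_range_succ', pow_zero, pow_add, h2]
  have : ∑ j ∈ range (v + 1), x ^ (j + 1) = x * ∑ j ∈ range (v + 1), x ^ j := by
    rw [Finset.mul_sum]
    refine Finset.sum_congr rfl fun j _ => ?_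
    rw [pow_succ']
  rw [this]
  ring

/-- `D = 9 E` divisible by `9`; `k` is a sign -/
theorem divB {E : ℕ} (hm : Squarefree m) (h2 : ¬ 2 ∣ m) (h3 : ¬ 3 ∣ m) (hq : B217 q)
    (hA : A17 a) (hE : E ≠ 0) (hy9 : Hy7 q m (9 * E)) (hy : Hy7 q m E) {k : ℤ} (hk : Sg k) :
    (2 : ℤ) ^ m.primeFactors.card ∣
      ∑ d ∈ m.divisors.filter (fun d => d % 4 = 1), pl (3 * a * d) (9 * E) -
        ∑ d ∈ m.divisors.filter (fun d => d % 4 = 3), pl (a * d) (9 * E) -
        ∑ d ∈ m.divisors.filter (fun d => d % 4 = 3), k * c3 d * pl (a * d) E := by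
  have hE9 : 9 * E ≠ 0 := Nat.mul_ne_zero (by norm_num) hE
  have hl3 : ∀ D : ℕ, 3 ∣ D → Hl q m D 3 := fun D _ h => absurd h h3
  by_cases h22 : 2 ≤ E.factorization 2
  swap
  · have h22' : ¬ 2 ≤ (9 * E).factorization 2 := by rw [fact_nine hE (by norm_num)]; exact h22
    rw [Finset.sum_eq_zero fun d _ => pl_zero_2 h22', Finset.sum_eq_zero fun d _ =>
      pl_zero_2 h22', Finset.sum_eq_zero fun d _ => by rw [pl_zero_2 h22, mul_zero]]
    simp
  have h22' : 2 ≤ (9 * E).factorization 2 := by rw [fact_nine hE (by norm_num)]; exact h22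
  set v := E.factorization 3 with hv
  have hv9 : (9 * E).factorization 3 = v + 2 := fact_nine_three hE
  -- the sign at `3`
  set s := s3 a with hs
  have hss : Sg s := hA.s3_sg
  have hss2 : s * s = 1 := by rcases hss with h | h <;> rw [h] <;> norm_num
  have hns : ∀ S ∈ m.primeFactors.powerset, Sg (s * ∏ p ∈ S, ee q m 3 p) := by
    intro S hS
    refine hss.mul (Sg.prod _ _ fun p hp => ee3_sg hm hq ?_)
    exact Finset.mem_powerset.1 hS hp
  -- the sum of the two families over `d ≡ 3 mod 4`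
  have e1 : 2 * (∑ d ∈ m.divisors.filter (fun d => d % 4 = 3), pl (a * d) (9 * E) +
        ∑ d ∈ m.divisors.filter (fun d => d % 4 = 3), k * c3 d * pl (a * d) E) =
      ∑ S ∈ m.primeFactors.powerset, (1 + (-1) * c4 (∏ p ∈ S, p)) *
        ((1 + (s * ∏ p ∈ S, ee q m 3 p) ^ v) * YT q m a E (T7 E) 1 S) +
      (1 + k * s) * XT q m a E (T7 E) v (-1) s 1 s true := by
    rw [← Finset.sum_add_distrib, sum_f3 hm h2
      (fun d => pl (a * d) (9 * E) + k * c3 d * pl (a * d) E)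
      (fun S => (1 + (s * ∏ p ∈ S, ee q m 3 p) ^ v) * YT q m a E (T7 E) 1 S +
        (1 + k * s) * ((s * ∏ p ∈ S, ee q m 3 p) * (∑ j ∈ range (v + 1),
          (s * ∏ p ∈ S, ee q m 3 p) ^ j) * YT q m a E (T7 E) 1 S))]
    · unfold XT
      rw [Finset.mul_sum, ← Finset.sum_add_distrib]
      refine Finset.sum_congr rfl fun S _ => ?_
      have : ∏ p ∈ S, wt true q m p = ∏ p ∈ S, ee q m 3 p := Finset.prod_congr rfl fun p _ => rfl
      rw [this]
      ring
    · intro S hS h4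
      rw [pl_1 hA hy9 (hl3 _) hE9 h22' hS h4, pl_1 hA hy (hl3 _) hE h22 hS h4, hv9,
        YT_nine hE, ← ee_three (q := q) h3 hS, ← hs]
      have := sg_geo' (k := k * s) (hns S hS) v
      have e5 : k * s * (s * ∏ p ∈ S, ee q m 3 p) = k * ∏ p ∈ S, ee q m 3 p := by
        linear_combination (k * ∏ p ∈ S, ee q m 3 p) * hss2
      rw [e5] at this
      calc _ = (∑ j ∈ range (v + 2 + 1), (s * ∏ p ∈ S, ee q m 3 p) ^ j +
            (k * ∏ p ∈ S, ee q m 3 p) * ∑ j ∈ range (v + 1),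
              (s * ∏ p ∈ S, ee q m 3 p) ^ j) * YT q m a E (T7 E) 1 S := by ring
        _ = _ := by rw [this]; ring
  have hX : (2 : ℤ) ^ (m.primeFactors.card + 1) ∣
      (1 + k * s) * XT q m a E (T7 E) v (-1) s 1 s true := by
    rw [pow_succ']
    refine mul_dvd_mul ?_ (XT_dvd (OT7 E) hm h2 hq _ _ _ _ _ _)
    have : Sg (k * s) := hk.mul hss
    rcases this with h | h <;> rw [h] <;> norm_num
  have h39 : 3 ∣ 9 * E := Dvd.dvd.mul_right (by norm_num) _
  set κ := jacobiSym (-(((9 * E) / 3 ^ (9 * E).factorization 3 : ℕ) : ℤ)) 3 with hκ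
  have hκs : Sg κ := kap_sg hE9
  apply pow_dvd_of_two
  have e4 : ∀ x y z : ℤ, 2 * (x - y - z) = 2 * x - 2 * (y + z) := fun x y z => by ring
  by_cases hev : Even v
  · have hev' : Even ((9 * E).factorization 3) := by
      rw [hv9]; exact hev.add (by decide)
    have e2 := sum3_even hm h2 hA hE9 hy9 h39 h22' hev'
    rw [← hκ, XT_nine hE] at e2
    have e3 : ∑ S ∈ m.primeFactors.powerset, (1 + (-1) * c4 (∏ p ∈ S, p)) *
        ((1 + (s * ∏ p ∈ S, ee q m 3 p) ^ v) * YT q m a E (T7 E) 1 S) =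
        2 * XT q m a E (T7 E) 0 (-1) 1 1 1 false := by
      unfold XT
      rw [Finset.mul_sum]
      refine Finset.sum_congr rfl fun S hS => ?_
      have h1 : (s * ∏ p ∈ S, ee q m 3 p) ^ v = 1 := by
        obtain ⟨w, hw'⟩ := hev
        have h2' : (s * ∏ p ∈ S, ee q m 3 p) ^ 2 = 1 := by
          rcases hns S hS with h | h <;> rw [h] <;> norm_num
        rw [hw', ← two_mul, pow_mul, h2', one_pow]
      rw [prod_wt_false, zero_add, Finset.sum_range_one, pow_zero, h1]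
      ring
    have h5 : (2 : ℤ) ^ (m.primeFactors.card + 1) ∣
        (1 + κ) * XT q m (3 * a) E (T7 E) 0 1 1 (-1) 1 false := by
      rw [pow_succ']
      refine mul_dvd_mul ?_ (XT_dvd (OT7 E) hm h2 hq _ _ _ _ _ _)
      rcases hκs with h | h <;> rw [h] <;> norm_num
    have h6 : (2 : ℤ) ^ (m.primeFactors.card + 1) ∣
        2 * XT q m a E (T7 E) 0 (-1) 1 1 1 false := by
      rw [pow_succ']
      exact mul_dvd_mul_left 2 (XT_dvd (OT7 E) hm h2 hq _ _ _ _ _ _)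
    rw [e4, e1, e2, e3]
    exact dvd_sub h5 (dvd_add h6 hX)
  · have hev' : ¬ Even ((9 * E).factorization 3) := by
      rw [hv9]
      intro h
      exact hev ((Nat.even_add.1 h).2 (by decide))
    have e2 := sum3_odd hm h2 h3 hA hE9 hy9 h39 h22' hev'
    rw [← hκ, XT_nine hE] at e2
    have e3 : ∑ S ∈ m.primeFactors.powerset, (1 + (-1) * c4 (∏ p ∈ S, p)) *
        ((1 + (s * ∏ p ∈ S, ee q m 3 p) ^ v) * YT q m a E (T7 E) 1 S) =
        XT q m a E (T7 E) 1 (-1) s 1 1 false := by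
      unfold XT
      refine Finset.sum_congr rfl fun S hS => ?_
      have h1 : (s * ∏ p ∈ S, ee q m 3 p) ^ v = s * ∏ p ∈ S, ee q m 3 p := by
        obtain ⟨w, hw'⟩ := Nat.not_even_iff_odd.1 hev
        have h2' : (s * ∏ p ∈ S, ee q m 3 p) ^ 2 = 1 := by
          rcases hns S hS with h | h <;> rw [h] <;> norm_num
        rw [hw', pow_add, pow_mul, h2', one_pow, one_mul, pow_one]
      rw [prod_wt_false, Finset.sum_range_succ, Finset.sum_range_one, pow_zero, pow_one, h1]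
      ring
    have hka : Sg (κ * c3 a) := hκs.mul (c3_sg hA.not3)
    rw [e4, e1, e2, e3, ← sub_sub]
    exact dvd_sub (XT_sub (OT7 E) hm h2 hq (Ap.three (OT7 E) hA.b) (Ap.of (OT7 E) hA.b) 1
      Sg.one hka Sg.neg_one Sg.one Sg.neg_one hss Sg.one Sg.one false) hX

end

end Pool.Agent.N871.Q17
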