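import Pool.Agent.N871.P17.Div2
import Pool.Agent.N871.P17.U

/-!
# Divisibility of sums of pair counts over the divisors, level 17, general form
-/

set_option autoImplicit false

namespace Pool.Agent.N871.Q17

open Finset
open Pool.Agent.Z700 (hh fac)
open Pool.Agent.N969.P15 (V3 tw)
open Pool.Agent.N871.P15
open Pool.Agent.N871.P17 (SS_loc sum_third rr_mul SS_symm)
open Pool.Agent.N972.P17

/-- `q'` and `q` have the same square class modulo `l` -/
def Qr (q q' l : ℕ) : Prop :=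
  ¬ l ∣ q' ∧ ∀ x : ℕ, jacobiSym ((q' * x : ℕ) : ℤ) l = jacobiSym ((q * x : ℕ) : ℤ) l

theorem Qr.sq {q s l : ℕ} (hl : l.Prime) (hq : ¬ l ∣ q) (hs : ¬ l ∣ s) : Qr q (s ^ 2 * q) l := by
  refine ⟨fun h => ?_, fun x => ?_⟩
  · rcases (Nat.Prime.dvd_mul hl).1 h with h | h
    · exact hs (hl.dvd_of_dvd_pow h)
    · exact hq h
  · have e : ((s ^ 2 * q * x : ℕ) : ℤ) = (s : ℤ) ^ 2 * ((q * x : ℕ) : ℤ) := by push_cast; ring
    rw [e, jacobiSym.mul_left, jacobiSym.sq_one', one_mul]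
    have : Nat.Coprime s l := by
      rw [Nat.coprime_comm, Nat.Prime.coprime_iff_not_dvd hl]
      exact hs
    simpa [Int.gcd] using this

theorem Qr.nine {q q' l : ℕ} (hl : l.Prime) (h3 : l ≠ 3) (h : Qr q q' l) : Qr q (9 * q') l := by
  obtain ⟨h1, h2⟩ := h
  have hl3 : ¬ l ∣ 3 := fun h => h3 ((Nat.prime_dvd_prime_iff_eq hl Nat.prime_three).1 h)
  have h4 := Qr.sq (q := q') (s := 3) hl h1 hl3
  refine ⟨h4.1, fun x => ?_⟩
  have := h4.2 x
  rw [← h2 x, ← this]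
  norm_num

/-- the conditions at the common primes -/
theorem hl_gen {q q' m D l : ℕ} {b : ℤ} (hm : Squarefree m) (hD : D ≠ 0)
    (hDD : (D : ℤ) = q' * m - b ^ 2) (hl : l.Prime) (hlD : l ∣ D) (hq : l ∣ m → Qr q q' l) :
    Hl q m D l := by
  intro hlm
  obtain ⟨hq1, hq2⟩ := hq hlm
  obtain ⟨m', rfl⟩ := hlm
  have hm' : ¬ l ∣ m' := by
    rintro ⟨c, rfl⟩
    exact hl.one_lt.ne' (Nat.isUnit_iff.1 (hm l ⟨c, by ring⟩))
  obtain ⟨D', rfl⟩ := hlD
  have hlb : (l : ℤ) ∣ b := by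
    have : (l : ℤ) ∣ b ^ 2 := ⟨q' * m' - D', by push_cast at hDD; linarith⟩
    exact (Nat.prime_iff_prime_int.1 hl).dvd_of_dvd_pow this
  obtain ⟨c, rfl⟩ := hlb
  have hl0 : (l : ℤ) ≠ 0 := by exact_mod_cast hl.ne_zero
  have e2 : (D' : ℤ) = q' * m' - l * c ^ 2 := by
    push_cast at hDD
    have : (l : ℤ) * D' = l * (q' * m' - l * c ^ 2) := by linarith
    exact mul_left_cancel₀ hl0 this
  have hn : ¬ l ∣ D' := by
    intro h
    have h1 : (l : ℤ) ∣ ((q' * m' : ℕ) : ℤ) := by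
      have : ((q' * m' : ℕ) : ℤ) = D' + l * c ^ 2 := by push_cast; rw [e2]; ring
      rw [this]
      exact dvd_add (by exact_mod_cast h) (Dvd.intro _ rfl)
    have h2 : l ∣ q' * m' := by exact_mod_cast h1
    rcases (Nat.Prime.dvd_mul hl).1 h2 with h | h
    · exact hq1 h
    · exact hm' h
  have hD' : D' ≠ 0 := by
    rintro rfl
    simp at hD
  rw [Nat.mul_div_cancel_left _ hl.pos, Nat.mul_div_cancel_left _ hl.pos]
  refine ⟨?_, ?_⟩
  · rw [Nat.factorization_mul hl.ne_zero hD', Finsupp.add_apply, hl.factorization_self,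
      Nat.factorization_eq_zero_of_not_dvd hn]
  · rw [← hq2]
    apply jacobiSym.mod_left'
    rw [e2, Int.sub_mul_emod_self_left]
    push_cast
    rfl

/-- families of pairs of norms with the same product -/
def Fm1 (F : Finset ℕ) (n1 n2 : ℕ → ℕ) (N : ℕ) : Prop :=
  ∀ d ∈ F, Squarefree (n1 d) ∧ n1 d % 4 = 3 ∧ ¬ 17 ∣ n1 d ∧ n1 d * n2 d = N ∧ 0 < n2 d

/-- the sum of the pair counts of a family -/
theorem fam (hPC : S_PC) {F : Finset ℕ} {n1 n2 : ℕ → ℕ} {N B : ℕ} (h : Fm1 F n1 n2 N)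
    (w : ℕ → ℤ) (hsq : ∀ b : ℤ, b ^ 2 ≠ N) (hB : N < B ^ 2) :
    ∑ d ∈ F, w d * SS (n1 d : ℕ) (n2 d : ℕ) = 6 * ∑ b ∈ Ioo (-(B : ℤ)) B,
      (if b ^ 2 < (N : ℤ) then ∑ d ∈ F, w d * loc (n1 d) ((N : ℤ) - b ^ 2).toNat else 0) := by
  have e1 : ∀ d ∈ F, w d * SS (n1 d : ℕ) (n2 d : ℕ) = ∑ b ∈ Ioo (-(B : ℤ)) B,
      6 * (if b ^ 2 < (N : ℤ) then w d * loc (n1 d) ((N : ℤ) - b ^ 2).toNat else 0) := by
    intro d hd
    obtain ⟨h1, h2, h3, h4, h5⟩ := h d hd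
    rw [SS_loc hPC h1 h2 h3 h4 h5 hsq hB, Finset.mul_sum, Finset.mul_sum]
    refine Finset.sum_congr rfl fun b _ => ?_
    split_ifs
    · ring
    · ring
  rw [Finset.sum_congr rfl e1, Finset.sum_comm, Finset.mul_sum]
  refine Finset.sum_congr rfl fun b _ => ?_
  by_cases hb : b ^ 2 < (N : ℤ)
  · simp only [hb, if_true, Finset.mul_sum]
  · simp only [hb, if_false, mul_zero, Finset.sum_const_zero]

/-- `loc` vanishes at `N` -/
def Z0 (N : ℕ) : Prop := ¬ Odd (N.factorization 17) ∨ ¬ 2 ≤ N.factorization 2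

theorem Z0.loc {N : ℕ} (h : Z0 N) (x : ℕ) : loc x N = 0 := by
  rcases h with h | h
  · rw [loc_pl, if_neg h]
  · rw [loc_pl, pl_zero_2 h, ite_self]

theorem Z0.nine {N : ℕ} (hN : N ≠ 0) (h : Z0 N) : Z0 (9 * N) := by
  unfold Z0 at h ⊢
  rwa [fact_nine hN (by norm_num), fact_nine hN (by norm_num)]

/-- divisibility from the divisibility of the sums of local densities -/
theorem fam_dvd (hPC : S_PC) {F : Finset ℕ} {n1 n2 : ℕ → ℕ} {N K : ℕ} (h : Fm1 F n1 n2 N)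
    (w : ℕ → ℤ) (hN : 1 < N) (hsq : ∀ b : ℤ, b ^ 2 ≠ N) (h0 : Z0 N)
    (hd : ∀ (b : ℤ) (D : ℕ), D ≠ 0 → (D : ℤ) = N - b ^ 2 →
      (2 : ℤ) ^ K ∣ 2 * ∑ d ∈ F, w d * loc (n1 d) D) :
    (2 : ℤ) ^ (K + 1) ∣ ∑ d ∈ F, w d * SS (n1 d : ℕ) (n2 d : ℕ) := by
  set G : ℤ → ℤ := fun b => if b ^ 2 < (N : ℤ) then
    ∑ d ∈ F, w d * loc (n1 d) ((N : ℤ) - b ^ 2).toNat else 0 with hG
  rw [fam hPC h w hsq (B := N) (by nlinarith), sum_symm N G]
  · have hdiv : (2 : ℤ) ^ K ∣ 2 * ∑ b ∈ Ioo (0 : ℤ) N, G b := by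
      rw [Finset.mul_sum]
      refine Finset.dvd_sum fun b _ => ?_
      by_cases hb : b ^ 2 < (N : ℤ)
      · have e : G b = ∑ d ∈ F, w d * loc (n1 d) ((N : ℤ) - b ^ 2).toNat := by
          rw [hG]; simp only [hb, if_true]
        rw [e]
        exact hd b _ (by omega) (Int.toNat_of_nonneg (by linarith))
      · have e : G b = 0 := by rw [hG]; simp only [hb, if_false]
        rw [e, mul_zero]
        exact dvd_zero _
    obtain ⟨c, hc⟩ := hdiv
    have e5 : ∀ x : ℤ, 6 * (2 * x) = 3 * (2 * (2 * x)) := fun x => by ring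
    rw [e5, hc]
    exact ⟨3 * c, by rw [pow_succ]; ring⟩
  · intro b
    rw [hG]
    have : (-b) ^ 2 = b ^ 2 := by ring
    simp only [this]
  · rw [hG]
    have h0' : (0 : ℤ) ^ 2 < (N : ℤ) := by
      have : (0 : ℤ) < N := by exact_mod_cast (by omega : 0 < N)
      linarith
    simp only [h0', if_true]
    refine Finset.sum_eq_zero fun d _ => ?_
    have : ((N : ℤ) - 0 ^ 2).toNat = N := by omega
    rw [this, h0.loc, mul_zero]

/-- `loc` and `pl` in a sum -/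
theorem sum_loc_pl {F : Finset ℕ} {n1 : ℕ → ℕ} (w : ℕ → ℤ) (D : ℕ) :
    ∑ d ∈ F, w d * loc (n1 d) D =
      if Odd (D.factorization 17) then ∑ d ∈ F, w d * pl (n1 d) D else 0 := by
  split_ifs with h
  · refine Finset.sum_congr rfl fun d _ => ?_
    rw [loc_pl, if_pos h]
  · refine Finset.sum_eq_zero fun d _ => ?_
    rw [loc_pl, if_neg h, mul_zero]

section

variable {q q' m : ℕ}

theorem hy7_gen {D : ℕ} {b : ℤ} (hm : Squarefree m) (hD : D ≠ 0)
    (hDD : (D : ℤ) = q' * m - b ^ 2)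
    (hQ : ∀ l : ℕ, l.Prime → l ≠ 2 → l ≠ 17 → l ∣ m → Qr q q' l) : Hy7 q m D :=
  fun l hl l2 _ l17 hlD => hl_gen hm hD hDD hl hlD (hQ l hl l2 l17)

theorem hy3_gen {D : ℕ} {b : ℤ} (hm : Squarefree m) (hD : D ≠ 0)
    (hDD : (D : ℤ) = q' * m - b ^ 2)
    (hQ : ∀ l : ℕ, l.Prime → l ≠ 2 → l ≠ 17 → l ∣ m → Qr q q' l) (h : 3 ∣ D) : Hl q m D 3 :=
  hl_gen hm hD hDD Nat.prime_three h (hQ 3 Nat.prime_three (by norm_num) (by norm_num))

/-- the family of the divisors `≡ 3 mod 4` -/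
theorem fm3 (hm : Squarefree m) (h17 : ¬ 17 ∣ m) (hq : 0 < q') :
    Fm1 (m.divisors.filter (fun d => d % 4 = 3)) (fun d => d) (fun d => q' * (m / d))
      (q' * m) := by
  intro d hd
  rw [Finset.mem_filter, Nat.mem_divisors] at hd
  obtain ⟨⟨hdn, hn0⟩, hd4⟩ := hd
  have e1 : d * (m / d) = m := Nat.mul_div_cancel' hdn
  refine ⟨hm.squarefree_of_dvd hdn, hd4, fun h => h17 (h.trans hdn), ?_, ?_⟩
  · calc d * (q' * (m / d)) = q' * (d * (m / d)) := by ring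
      _ = q' * m := by rw [e1]
  · refine Nat.mul_pos hq (Nat.pos_of_ne_zero fun h => ?_)
    rw [h, mul_zero] at e1
    exact hn0 e1.symm

/-- the family `3 d`, `d ≡ 1 mod 4` -/
theorem fm1 (hm : Squarefree m) (h3 : ¬ 3 ∣ m) (h17 : ¬ 17 ∣ m) (hq : 0 < q') :
    Fm1 (m.divisors.filter (fun d => d % 4 = 1)) (fun d => 3 * 1 * d)
      (fun d => 3 * (q' * (m / d))) (9 * (q' * m)) := by
  intro d hd
  rw [Finset.mem_filter, Nat.mem_divisors] at hd
  obtain ⟨⟨hdn, hn0⟩, hd4⟩ := hd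
  have e1 : d * (m / d) = m := Nat.mul_div_cancel' hdn
  refine ⟨?_, ?_, ?_, ?_, ?_⟩
  · show Squarefree (3 * 1 * d)
    rw [mul_one, Nat.squarefree_mul_iff]
    refine ⟨?_, Nat.prime_three.squarefree, hm.squarefree_of_dvd hdn⟩
    exact (Nat.Prime.coprime_iff_not_dvd Nat.prime_three).2 fun h => h3 (h.trans hdn)
  · show 3 * 1 * d % 4 = 3
    omega
  · intro h
    rcases (Nat.Prime.dvd_mul (by norm_num : Nat.Prime 17)).1 h with h | h
    · omega
    · exact h17 (h.trans hdn)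
  · calc 3 * 1 * d * (3 * (q' * (m / d))) = 9 * (q' * (d * (m / d))) := by ring
      _ = 9 * (q' * m) := by rw [e1]
  · refine Nat.mul_pos (by norm_num) (Nat.mul_pos hq (Nat.pos_of_ne_zero fun h => ?_))
    rw [h, mul_zero] at e1
    exact hn0 e1.symm

theorem nsq9' {N : ℕ} (h : ∀ b : ℤ, b ^ 2 ≠ (N : ℤ)) (b : ℤ) : b ^ 2 ≠ ((9 * N : ℕ) : ℤ) := by
  intro hb
  have h3 : (3 : ℤ) ∣ b := by
    have : (3 : ℤ) ∣ b ^ 2 := ⟨3 * N, by rw [hb]; push_cast; ring⟩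
    exact Int.prime_three.dvd_of_dvd_pow this
  obtain ⟨c, rfl⟩ := h3
  refine h c ?_
  push_cast at hb
  linarith

/-- the sum over `d ≡ 3 mod 4` -/
theorem gen_U1 (hPC : S_PC) (hm : Squarefree m) (h2 : ¬ 2 ∣ m) (h17 : ¬ 17 ∣ m) (hq : B217 q)
    (hq' : 0 < q') (hQ : ∀ l : ℕ, l.Prime → l ≠ 2 → l ≠ 17 → l ∣ m → Qr q q' l)
    (hN : 1 < q' * m) (hsq : ∀ b : ℤ, b ^ 2 ≠ ((q' * m : ℕ) : ℤ)) (h0 : Z0 (q' * m)) :
    (2 : ℤ) ^ (m.primeFactors.card + 1) ∣
      ∑ d ∈ m.divisors.filter (fun d => d % 4 = 3), SS (d : ℕ) (q' * (m / d) : ℕ) := by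
  have key := fam_dvd hPC (fm3 hm h17 hq') (fun _ => 1) hN hsq h0 (K := m.primeFactors.card)
    fun b D hD hDD => ?_
  · refine (congrArg ((2 : ℤ) ^ (m.primeFactors.card + 1) ∣ ·)
      (Finset.sum_congr rfl fun d _ => ?_)).mp key
    exact one_mul _
  · rw [sum_loc_pl]
    split_ifs
    · have := div1 (a := 1) hm h2 hq (Or.inl rfl) hD
        (hy7_gen (b := b) hm hD (by rw [hDD]; push_cast; ring) hQ)
        (hy3_gen (b := b) hm hD (by rw [hDD]; push_cast; ring) hQ)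
      simpa only [one_mul] using this
    · rw [mul_zero]
      exact dvd_zero _

/-- the sum over `d ≡ 3 mod 4` with the character modulo `3` -/
theorem gen_U1w (hPC : S_PC) (hm : Squarefree m) (h2 : ¬ 2 ∣ m) (h3 : ¬ 3 ∣ m) (h17 : ¬ 17 ∣ m)
    (hq : B217 q)
    (hq' : 0 < q') (hQ : ∀ l : ℕ, l.Prime → l ≠ 2 → l ≠ 17 → l ∣ m → Qr q q' l)
    (hN : 1 < q' * m) (hsq : ∀ b : ℤ, b ^ 2 ≠ ((q' * m : ℕ) : ℤ)) (h0 : Z0 (q' * m)) :
    (2 : ℤ) ^ (m.primeFactors.card + 1) ∣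
      ∑ d ∈ m.divisors.filter (fun d => d % 4 = 3), c3 d * SS (d : ℕ) (q' * (m / d) : ℕ) := by
  refine fam_dvd hPC (fm3 hm h17 hq') c3 hN hsq h0 (K := m.primeFactors.card)
    fun b D hD hDD => ?_
  rw [sum_loc_pl]
  split_ifs
  · have := div1w (a := 1) hm h2 h3 hq (Or.inl rfl) hD
      (hy7_gen (b := b) hm hD (by rw [hDD]; push_cast; ring) hQ)
    simpa only [one_mul] using this
  · rw [mul_zero]
    exact dvd_zero _

/-- the sum over `3 d`, `d ≡ 1 mod 4` -/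
theorem gen_U3s (hPC : S_PC) (hm : Squarefree m) (h2 : ¬ 2 ∣ m) (h3 : ¬ 3 ∣ m) (h17 : ¬ 17 ∣ m)
    (hq : B217 q)
    (hq' : 0 < q') (hQ : ∀ l : ℕ, l.Prime → l ≠ 2 → l ≠ 17 → l ∣ m → Qr q q' l)
    (hN : 1 < q' * m) (hsq : ∀ b : ℤ, b ^ 2 ≠ ((q' * m : ℕ) : ℤ)) (h0 : Z0 (q' * m)) :
    (2 : ℤ) ^ (m.primeFactors.card + 1) ∣
      ∑ d ∈ m.divisors.filter (fun d => d % 4 = 1),
        SS (3 * d : ℕ) (3 * (q' * (m / d)) : ℕ) := by
  have hQ9 : ∀ l : ℕ, l.Prime → l ≠ 2 → l ≠ 17 → l ∣ m → Qr q (9 * q') l :=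
    fun l hl l2 l17 hlm => (hQ l hl l2 l17 hlm).nine hl (fun h => h3 (h ▸ hlm))
  have key := fam_dvd hPC (fm1 hm h3 h17 hq') (fun _ => 1) (by omega) (nsq9' hsq)
    (h0.nine (by omega)) (K := m.primeFactors.card) fun b D hD hDD => ?_
  · refine (congrArg ((2 : ℤ) ^ (m.primeFactors.card + 1) ∣ ·)
      (Finset.sum_congr rfl fun d _ => ?_)).mp key
    exact one_mul _
  · rw [sum_loc_pl]
    split_ifs
    · have := div3 (a := 1) hm h2 h3 hq (Or.inl rfl) hD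
        (hy7_gen (q' := 9 * q') (b := b) hm hD (by rw [hDD]; push_cast; ring) hQ9)
      simpa only [one_mul] using this
    · rw [mul_zero]
      exact dvd_zero _

/-- the combination -/
theorem gen_U3 (hPC : S_PC) (hm : Squarefree m) (h2 : ¬ 2 ∣ m) (h3 : ¬ 3 ∣ m) (h17 : ¬ 17 ∣ m)
    (hq : B217 q)
    (hq' : 0 < q') (hQ : ∀ l : ℕ, l.Prime → l ≠ 2 → l ≠ 17 → l ∣ m → Qr q q' l)
    (hN : 1 < q' * m) (hsq : ∀ b : ℤ, b ^ 2 ≠ ((q' * m : ℕ) : ℤ)) (h0 : Z0 (q' * m))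
    (h3q : ¬ 3 ∣ q') {k : ℤ} (hk : Sg k) :
    (2 : ℤ) ^ (m.primeFactors.card + 2) ∣
      ∑ d ∈ m.divisors.filter (fun d => d % 4 = 1),
        SS (3 * d : ℕ) (3 * (q' * (m / d)) : ℕ) -
      ∑ d ∈ m.divisors.filter (fun d => d % 4 = 3),
        (SS (d : ℕ) (9 * (q' * (m / d)) : ℕ) + k * c3 d * SS (d : ℕ) (q' * (m / d) : ℕ)) := by
  have hQ9 : ∀ l : ℕ, l.Prime → l ≠ 2 → l ≠ 17 → l ∣ m → Qr q (9 * q') l :=
    fun l hl l2 l17 hlm => (hQ l hl l2 l17 hlm).nine hl (fun h => h3 (h ▸ hlm))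
  set N := q' * m with hNd
  have hN0 : N ≠ 0 := by omega
  have h3N : ¬ 3 ∣ N := by
    intro h
    rcases (Nat.Prime.dvd_mul Nat.prime_three).1 h with h | h
    · exact h3q h
    · exact h3 h
  have h09 : Z0 (9 * N) := h0.nine hN0
  have hsq9 := nsq9' hsq
  set F1 := m.divisors.filter (fun d => d % 4 = 1) with hF1
  set F3 := m.divisors.filter (fun d => d % 4 = 3) with hF3
  set FU : ℤ → ℤ := fun b => if b ^ 2 < ((9 * N : ℕ) : ℤ) then
    ∑ d ∈ F1, 1 * loc (3 * 1 * d) (((9 * N : ℕ) : ℤ) - b ^ 2).toNat else 0 with hFU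
  set FV : ℤ → ℤ := fun b => if b ^ 2 < ((9 * N : ℕ) : ℤ) then
    ∑ d ∈ F3, 1 * loc d (((9 * N : ℕ) : ℤ) - b ^ 2).toNat else 0 with hFV
  set FW : ℤ → ℤ := fun b => if b ^ 2 < (N : ℤ) then
    ∑ d ∈ F3, (k * c3 d) * loc d ((N : ℤ) - b ^ 2).toNat else 0 with hFW
  have k1 : ∑ d ∈ F1, SS (3 * d : ℕ) (3 * (q' * (m / d)) : ℕ) =
      6 * ∑ b ∈ Ioo (-((3 * N : ℕ) : ℤ)) ((3 * N : ℕ) : ℤ), FU b := by
    have := fam hPC (fm1 hm h3 h17 hq') (fun _ => 1) hsq9 (B := 3 * N) (by nlinarith)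
    refine Eq.trans (Finset.sum_congr rfl fun d _ => ?_) this
    exact (one_mul _).symm
  have k3 : ∑ d ∈ F3, SS (d : ℕ) (9 * (q' * (m / d)) : ℕ) =
      6 * ∑ b ∈ Ioo (-((3 * N : ℕ) : ℤ)) ((3 * N : ℕ) : ℤ), FV b := by
    have h5 : Fm1 F3 (fun d => d) (fun d => 9 * q' * (m / d)) (9 * N) := by
      have := fm3 (q' := 9 * q') hm h17 (by omega)
      rwa [mul_assoc, ← hNd] at this
    have := fam hPC h5 (fun _ => 1) hsq9 (B := 3 * N) (by nlinarith)
    refine Eq.trans (Finset.sum_congr rfl fun d _ => ?_) this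
    rw [one_mul, mul_assoc]
  have k4 : ∑ d ∈ F3, k * c3 d * SS (d : ℕ) (q' * (m / d) : ℕ) =
      6 * ∑ b ∈ Ioo (-(N : ℤ)) N, FW b :=
    fam hPC (fm3 hm h17 hq') (fun d => k * c3 d) hsq (B := N) (by nlinarith)
  rw [Finset.sum_add_distrib, k1, k3, k4, sum_third N FW]
  set H : ℤ → ℤ := fun b => FU b - FV b - (if (3 : ℤ) ∣ b then FW (b / 3) else 0) with hH
  have k5 : 6 * ∑ b ∈ Ioo (-((3 * N : ℕ) : ℤ)) ((3 * N : ℕ) : ℤ), FU b -
      (6 * ∑ b ∈ Ioo (-((3 * N : ℕ) : ℤ)) ((3 * N : ℕ) : ℤ), FV b +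
        6 * ∑ b ∈ Ioo (-((3 * N : ℕ) : ℤ)) ((3 * N : ℕ) : ℤ),
          (if (3 : ℤ) ∣ b then FW (b / 3) else 0)) =
      6 * ∑ b ∈ Ioo (-((3 * N : ℕ) : ℤ)) ((3 * N : ℕ) : ℤ), H b := by
    rw [hH, Finset.sum_sub_distrib, Finset.sum_sub_distrib]
    ring
  rw [k5, sum_symm (3 * N) H]
  rotate_left
  · intro b
    rw [hH]
    have e : (-b) ^ 2 = b ^ 2 := by ring
    by_cases h : (3 : ℤ) ∣ b
    · have h' : (3 : ℤ) ∣ -b := by rwa [dvd_neg]
      obtain ⟨c, rfl⟩ := h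
      have e1 : -(3 * c) / 3 = -c := by
        rw [show -(3 * c) = 3 * (-c) by ring, Int.mul_ediv_cancel_left _ (by norm_num)]
      have e2 : 3 * c / 3 = c := Int.mul_ediv_cancel_left _ (by norm_num)
      have e3 : (-c) ^ 2 = c ^ 2 := by ring
      simp only [hFU, hFV, hFW, e, h', if_true, e1, e2, e3, dvd_mul_right]
    · have h' : ¬ (3 : ℤ) ∣ -b := by rwa [dvd_neg]
      simp only [hFU, hFV, e, h', h, if_false]
  · have a9 : (((9 * N : ℕ) : ℤ) - 0).toNat = 9 * N := by omega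
    have a1 : ((N : ℤ) - 0).toNat = N := by omega
    have z1 : FU 0 = 0 := by
      rw [hFU]
      simp only [ne_eq, OfNat.ofNat_ne_zero, not_false_eq_true, zero_pow]
      split_ifs
      · exact Finset.sum_eq_zero fun d _ => by rw [a9, h09.loc, mul_zero]
      · rfl
    have z2 : FV 0 = 0 := by
      rw [hFV]
      simp only [ne_eq, OfNat.ofNat_ne_zero, not_false_eq_true, zero_pow]
      split_ifs
      · exact Finset.sum_eq_zero fun d _ => by rw [a9, h09.loc, mul_zero]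
      · rfl
    have z3 : FW 0 = 0 := by
      rw [hFW]
      simp only [ne_eq, OfNat.ofNat_ne_zero, not_false_eq_true, zero_pow]
      split_ifs
      · exact Finset.sum_eq_zero fun d _ => by rw [a1, h0.loc, mul_zero]
      · rfl
    rw [hH]
    simp only [z1, z2, dvd_zero, if_true, EuclideanDomain.zero_div, z3, sub_zero]
  have hdiv : (2 : ℤ) ^ m.primeFactors.card ∣
      ∑ b ∈ Ioo (0 : ℤ) ((3 * N : ℕ) : ℤ), H b := by
    refine Finset.dvd_sum fun b _ => ?_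
    by_cases h3b : (3 : ℤ) ∣ b
    · obtain ⟨c, rfl⟩ := h3b
      have e2 : 3 * c / 3 = c := Int.mul_ediv_cancel_left _ (by norm_num)
      have hH' : H (3 * c) = FU (3 * c) - FV (3 * c) - FW c := by
        rw [hH]
        simp only [if_true, dvd_mul_right, e2]
      rw [hH']
      by_cases hb : c ^ 2 < (N : ℤ)
      · have hb' : (3 * c) ^ 2 < ((9 * N : ℕ) : ℤ) := by push_cast; linarith
        set E := ((N : ℤ) - c ^ 2).toNat with hE
        have hEE : (E : ℤ) = N - c ^ 2 := Int.toNat_of_nonneg (by linarith)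
        have hE0 : E ≠ 0 := by omega
        have e9 : (((9 * N : ℕ) : ℤ) - (3 * c) ^ 2).toNat = 9 * E := by
          have : ((9 * N : ℕ) : ℤ) - (3 * c) ^ 2 = ((9 * E : ℕ) : ℤ) := by
            push_cast
            rw [hEE]
            ring
          rw [this, Int.toNat_natCast]
        have u1 : FU (3 * c) = ∑ d ∈ F1, 1 * loc (3 * 1 * d) (9 * E) := by
          rw [hFU]; simp only [hb', if_true, e9]
        have u2 : FV (3 * c) = ∑ d ∈ F3, 1 * loc d (9 * E) := by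
          rw [hFV]; simp only [hb', if_true, e9]
        have u3 : FW c = ∑ d ∈ F3, (k * c3 d) * loc d E := by
          rw [hFW]; simp only [hb, if_true]; rfl
        have f17 : (9 * E).factorization 17 = E.factorization 17 := fact_nine hE0 (by norm_num)
        rw [u1, u2, u3, sum_loc_pl (n1 := fun d => 3 * 1 * d), sum_loc_pl (n1 := fun d => d),
          sum_loc_pl (n1 := fun d => d), f17]
        split_ifs
        · have := divB (a := 1) hm h2 h3 hq (Or.inl rfl) hE0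
            (hy7_gen (q' := 9 * q') (b := 3 * c) hm (Nat.mul_ne_zero (by norm_num) hE0)
              (by push_cast; rw [hEE, hNd]; push_cast; ring) hQ9)
            (hy7_gen (q' := q') (b := c) hm hE0 (by rw [hEE, hNd]; push_cast; ring) hQ) hk
          simpa only [one_mul] using this
        · simp
      · have hb' : ¬ (3 * c) ^ 2 < ((9 * N : ℕ) : ℤ) := by push_cast; linarith
        have u1 : FU (3 * c) = 0 := by rw [hFU]; simp only [hb', if_false]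
        have u2 : FV (3 * c) = 0 := by rw [hFV]; simp only [hb', if_false]
        have u3 : FW c = 0 := by rw [hFW]; simp only [hb, if_false]
        rw [u1, u2, u3]
        simp
    · have hH' : H b = FU b - FV b := by
        rw [hH]
        simp only [h3b, if_false, sub_zero]
      rw [hH']
      by_cases hb : b ^ 2 < ((9 * N : ℕ) : ℤ)
      · set E := (((9 * N : ℕ) : ℤ) - b ^ 2).toNat with hE
        have hEE : (E : ℤ) = ((9 * N : ℕ) : ℤ) - b ^ 2 := Int.toNat_of_nonneg (by linarith)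
        have hE0 : E ≠ 0 := by omega
        have u1 : FU b = ∑ d ∈ F1, 1 * loc (3 * 1 * d) E := by
          rw [hFU]; simp only [hb, if_true]; rfl
        have u2 : FV b = ∑ d ∈ F3, 1 * loc d E := by
          rw [hFV]; simp only [hb, if_true]; rfl
        have h3E : ¬ 3 ∣ E := by
          intro h
          apply h3b
          have h5 : (3 : ℤ) ∣ b ^ 2 := by
            have : (3 : ℤ) ∣ (E : ℤ) := by exact_mod_cast h
            have e : b ^ 2 = 9 * N - E := by rw [hEE]; push_cast; ring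
            rw [e]
            exact dvd_sub ⟨3 * N, by ring⟩ this
          exact Int.prime_three.dvd_of_dvd_pow h5
        rw [u1, u2, sum_loc_pl (n1 := fun d => 3 * 1 * d), sum_loc_pl (n1 := fun d => d)]
        split_ifs
        · have := divA (a := 1) hm h2 hq (Or.inl rfl) hE0
            (hy7_gen (q' := 9 * q') (b := b) hm hE0
              (by rw [hEE, hNd]; push_cast; ring) hQ9) h3E
          simpa only [one_mul] using this
        · simp
      · have u1 : FU b = 0 := by rw [hFU]; simp only [hb, if_false]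
        have u2 : FV b = 0 := by rw [hFV]; simp only [hb, if_false]
        rw [u1, u2]
        simp
  obtain ⟨c, hc⟩ := hdiv
  rw [hc]
  exact ⟨3 * c, by rw [pow_add]; ring⟩

end

end Pool.Agent.N871.Q17
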