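import Pool.Agent.N871.P15.U

/-!
# The local densities as characters of the set of primes, general form
-/

set_option autoImplicit false

namespace Pool.Agent.N871.P17

open Finset
open Pool.Agent.Z700 (hh fac)
open Pool.Agent.N969.P15 (tw)
open Pool.Agent.N871.P15

/-- the behaviour of `D` at a common prime with `m` -/
def Hl (m D l : ℕ) : Prop := l ∣ m →
  D.factorization l = 1 ∧ jacobiSym ((D / l : ℕ) : ℤ) l = jacobiSym ((1 * (m / l) : ℕ) : ℤ) l

/-- the local factor as a geometric sum of a character -/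
theorem fac_char' {m D a l : ℕ} (hlp : l.Prime) (hla : ¬ l ∣ a) (hy : Hl m D l)
    {S : Finset ℕ} (hS : S ⊆ m.primeFactors) :
    fac (a * ∏ p ∈ S, p) D l = ∑ j ∈ range (D.factorization l + 1),
      (jacobiSym (-(a : ℤ)) l * ∏ p ∈ S, ee 1 m l p) ^ j := by
  by_cases hd : l ∈ S
  · have hlm : l ∣ m := Nat.dvd_of_mem_primeFactors (hS hd)
    obtain ⟨h6, h7⟩ := hy hlm
    have e1 : a * ∏ p ∈ S, p = l * (a * ∏ p ∈ S.erase l, p) := by
      rw [← Finset.mul_prod_erase S (fun p => p) hd]; ring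
    have hdiv : l ∣ a * ∏ p ∈ S, p := by rw [e1]; exact Dvd.intro _ rfl
    rw [fac, if_pos hdiv, h6, hh, h6, if_neg (by decide)]
    have e2 : (a * ∏ p ∈ S, p) / l = a * ∏ p ∈ S.erase l, p := by
      rw [e1, Nat.mul_div_cancel_left _ hlp.pos]
    rw [e2, pow_one, Finset.sum_range_succ, Finset.sum_range_one, pow_zero, pow_one]
    congr 1
    have e4 : (-((a * (∏ p ∈ S.erase l, p) * (D / l) : ℕ) : ℤ)) =
        (-(a : ℤ)) * ((∏ p ∈ S.erase l, p : ℕ) : ℤ) * ((D / l : ℕ) : ℤ) := by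
      push_cast; ring
    rw [e4, jacobiSym.mul_left, jacobiSym.mul_left, h7, js_prod,
      ← Finset.mul_prod_erase S (fun p => ee 1 m l p) hd]
    have e5 : ee 1 m l l = jacobiSym ((1 * (m / l) : ℕ) : ℤ) l := by rw [ee, if_pos rfl]
    have e6 : ∏ p ∈ S.erase l, ee 1 m l p = ∏ p ∈ S.erase l, jacobiSym (p : ℤ) l := by
      refine Finset.prod_congr rfl fun p hp => ?_
      rw [ee, if_neg]
      rintro rfl
      exact (Finset.mem_erase.1 hp).1 rfl
    rw [e5, e6]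
    ring
  · have hdiv : ¬ l ∣ a * ∏ p ∈ S, p := by
      intro h
      rcases (Nat.Prime.dvd_mul hlp).1 h with h | h
      · exact hla h
      · exact prime_not_dvd_prod (fun p hp => Nat.prime_of_mem_primeFactors hp) hS hlp hd h
    rw [fac, if_neg hdiv]
    refine Finset.sum_congr rfl fun j _ => ?_
    congr 1
    have e4 : (-((a * ∏ p ∈ S, p : ℕ) : ℤ)) = (-(a : ℤ)) * ((∏ p ∈ S, p : ℕ) : ℤ) := by
      push_cast; ring
    rw [e4, jacobiSym.mul_left, js_prod]
    congr 1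
    refine Finset.prod_congr rfl fun p hp => ?_
    rw [ee, if_neg]
    rintro rfl
    exact hd hp

/-- the characters in one family -/
def chj (m i p : ℕ) : ℤ := if i = 4 then c4 p else if i = 2 then c8 p else ee 1 m i p

/-- the exponents in one family -/
def exj (D e3 i : ℕ) : ℕ :=
  if i = 4 then 1 else if i = 3 then e3 else if i = 2 then D.factorization 2 - 2
    else D.factorization i

/-- the signs in one family -/
def sgj (a : ℕ) (s4 s3 s2 : ℤ) (i : ℕ) : ℤ :=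
  if i = 4 then s4 else if i = 3 then s3 else if i = 2 then s2 else jacobiSym (-(a : ℤ)) i

/-- the weight at `3` -/
def wt (w : Bool) (m p : ℕ) : ℤ := if w = true then ee 1 m 3 p else 1

/-- the product over the primes of `T` and `2` -/
def YT (m a D : ℕ) (T : Finset ℕ) (s2 : ℤ) (S : Finset ℕ) : ℤ :=
  (∑ j ∈ range (D.factorization 2 - 2 + 1), (s2 * c8 (∏ p ∈ S, p)) ^ j) *
    ∏ l ∈ T, ∑ j ∈ range (D.factorization l + 1),
      (jacobiSym (-(a : ℤ)) l * ∏ p ∈ S, ee 1 m l p) ^ j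

/-- the sum over all subsets of the primes of `m` -/
def XT (m a D : ℕ) (T : Finset ℕ) (e3 : ℕ) (s4 s3 s2 c0 : ℤ) (w : Bool) : ℤ :=
  ∑ S ∈ m.primeFactors.powerset, c0 * (∏ p ∈ S, wt w m p) *
    ((1 + s4 * c4 (∏ p ∈ S, p)) * ((∑ j ∈ range (e3 + 1), (s3 * ∏ p ∈ S, ee 1 m 3 p) ^ j) *
      YT m a D T s2 S))

/-- odd primes other than `3` -/
def OT (T : Finset ℕ) : Prop := ∀ l ∈ T, l.Prime ∧ l ≠ 2 ∧ l ≠ 3

theorem OT.not_mem {T : Finset ℕ} (h : OT T) {i : ℕ} (hi : i = 2 ∨ i = 3 ∨ i = 4) : i ∉ T := by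
  intro h1
  obtain ⟨h2, h3, h4⟩ := h i h1
  rcases hi with rfl | rfl | rfl
  · exact h3 rfl
  · exact h4 rfl
  · exact absurd h2 (by norm_num)

theorem XT_eq (m a D : ℕ) {T : Finset ℕ} (hT : OT T) (e3 : ℕ) (s4 s3 s2 c0 : ℤ) (w : Bool) :
    XT m a D T e3 s4 s3 s2 c0 w = XS m.primeFactors (insert 4 (insert 3 (insert 2 T)))
      (exj D e3) c0 (sgj a s4 s3 s2) (wt w m) (chj m) := by
  unfold XS XT
  refine Finset.sum_congr rfl fun S _ => ?_
  congr 1
  rw [Finset.prod_insert, Finset.prod_insert, Finset.prod_insert (hT.not_mem (Or.inl rfl))]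
  · congr 1
    · have : exj D e3 4 = 1 := rfl
      rw [this, Finset.sum_range_succ, Finset.sum_range_one, pow_zero, pow_one, c4_prod]
      rfl
    · congr 1
      unfold YT
      congr 1
      · rw [c8_prod]
        rfl
      · refine Finset.prod_congr rfl fun l hl => ?_
        obtain ⟨h1, h2, h3⟩ := hT l hl
        have h4 : l ≠ 4 := fun h => hT.not_mem (Or.inr (Or.inr h)) hl
        rw [exj, if_neg h4, if_neg h3, if_neg h2, sgj, if_neg h4, if_neg h3, if_neg h2]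
        refine Finset.sum_congr rfl fun j _ => ?_
        congr 2
        refine Finset.prod_congr rfl fun p _ => ?_
        rw [chj, if_neg h4, if_neg h2]
  · rw [Finset.mem_insert, not_or]
    exact ⟨by norm_num, hT.not_mem (Or.inr (Or.inl rfl))⟩
  · rw [Finset.mem_insert, Finset.mem_insert, not_or, not_or]
    exact ⟨by norm_num, by norm_num, hT.not_mem (Or.inr (Or.inr rfl))⟩

theorem ee_sg {m l p : ℕ} (hm : Squarefree m) (hl : l.Prime) (hp : p ∈ m.primeFactors) :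
    Sg (ee 1 m l p) := by
  have hpp := Nat.prime_of_mem_primeFactors hp
  have hpm := Nat.dvd_of_mem_primeFactors hp
  unfold ee
  split_ifs with h
  · apply js_sg
    refine Nat.Coprime.mul_left (Nat.coprime_one_left l) ?_
    rw [← h]
    rw [Nat.coprime_comm, Nat.Prime.coprime_iff_not_dvd hpp]
    intro h6
    have : p * p ∣ m := by
      obtain ⟨c, hc⟩ := h6
      refine ⟨c, ?_⟩
      rw [mul_assoc, ← hc, Nat.mul_div_cancel' hpm]
    exact hpp.one_lt.ne' (Nat.isUnit_iff.1 (hm p this))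
  · exact js_sg ((Nat.coprime_primes hpp hl).2 h)

theorem wt_sg {m p : ℕ} (hm : Squarefree m) (w : Bool) (hp : p ∈ m.primeFactors) :
    Sg (wt w m p) := by
  unfold wt
  split_ifs
  · exact ee_sg hm Nat.prime_three hp
  · exact Sg.one

theorem chj_sg {m : ℕ} {T : Finset ℕ} (hT : OT T) (hm : Squarefree m) (h2 : ¬ 2 ∣ m)
    {i : ℕ} (hi : i ∈ insert 4 (insert 3 (insert 2 T))) {p : ℕ}
    (hp : p ∈ m.primeFactors) : Sg (chj m i p) := by
  have hpp := Nat.prime_of_mem_primeFactors hp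
  have hpm := Nat.dvd_of_mem_primeFactors hp
  have hp2 : p % 2 = 1 := by
    rcases Nat.Prime.eq_two_or_odd hpp with h | h
    · exact absurd (h ▸ hpm) h2
    · exact h
  unfold chj
  split_ifs with h4' h2'
  · exact c4_sg hp2
  · exact c8_sg hp2
  · simp only [Finset.mem_insert, h4', h2', false_or] at hi
    rcases hi with rfl | hi
    · exact ee_sg hm Nat.prime_three hp
    · exact ee_sg hm (hT i hi).1 hp

theorem sgj_sg {a : ℕ} {T : Finset ℕ} (hT : OT T) (ha : a = 1 ∨ a = 3) {s4 s3 s2 : ℤ}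
    (h4 : Sg s4) (h3 : Sg s3) (h2 : Sg s2)
    {i : ℕ} (hi : i ∈ insert 4 (insert 3 (insert 2 T))) : Sg (sgj a s4 s3 s2 i) := by
  unfold sgj
  split_ifs with h4' h3' h2'
  · exact h4
  · exact h3
  · exact h2
  · simp only [Finset.mem_insert, h4', h3', h2', false_or] at hi
    obtain ⟨hlp, l2, l3⟩ := hT i hi
    unfold Sg
    apply jacobiSym.eq_one_or_neg_one
    have hal : Nat.Coprime a i := by
      rcases ha with rfl | rfl
      · exact Nat.coprime_one_left i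
      · exact (Nat.coprime_primes Nat.prime_three hlp).2 (Ne.symm l3)
    simpa [Int.gcd] using hal

theorem XT_dvd {m a D : ℕ} {T : Finset ℕ} (hT : OT T) (hm : Squarefree m) (h2 : ¬ 2 ∣ m)
    (e3 : ℕ) (s4 s3 s2 c0 : ℤ) (w : Bool) :
    (2 : ℤ) ^ m.primeFactors.card ∣ XT m a D T e3 s4 s3 s2 c0 w := by
  rw [XT_eq m a D hT]
  exact XS_dvd _ _ _ (fun i hi p hp => chj_sg hT hm h2 hi hp) _ _ fun p hp => wt_sg hm w hp

theorem XT_sub {m a a' D : ℕ} {T : Finset ℕ} (hT : OT T) (hm : Squarefree m) (h2 : ¬ 2 ∣ m)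
    (ha : a = 1 ∨ a = 3) (ha' : a' = 1 ∨ a' = 3)
    (e3 : ℕ) {s4 s3 s2 c0 s4' s3' s2' c0' : ℤ} (h4 : Sg s4) (h3 : Sg s3) (h2' : Sg s2)
    (h0 : Sg c0) (h4' : Sg s4') (h3' : Sg s3') (h2'' : Sg s2') (h0' : Sg c0') (w : Bool) :
    (2 : ℤ) ^ (m.primeFactors.card + 1) ∣
      XT m a D T e3 s4 s3 s2 c0 w - XT m a' D T e3 s4' s3' s2' c0' w := by
  rw [XT_eq m a D hT, XT_eq m a' D hT]
  exact XS_sub _ _ _ _ (fun i hi p hp => chj_sg hT hm h2 hi hp)
    (fun i hi => sgj_sg hT ha h4 h3 h2' hi) (fun i hi => sgj_sg hT ha' h4' h3' h2'' hi)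
    _ _ h0 h0' _ fun p hp => wt_sg hm w hp

/-- the factor at `2` and the factors at the primes of `T`, `d ≡ 3 mod 4` -/
theorem rest_1 {m D : ℕ} {T : Finset ℕ} (hT : OT T) (hy : ∀ l ∈ T, Hl m D l)
    (h2 : 2 ≤ D.factorization 2) {S : Finset ℕ} (hS : S ∈ m.primeFactors.powerset)
    (h4 : (∏ p ∈ S, p) % 4 = 3) :
    tw (∏ p ∈ S, p) D * ∏ l ∈ T, fac (∏ p ∈ S, p) D l = YT m 1 D T 1 S := by
  rw [Finset.mem_powerset] at hS
  unfold YT
  have := tw1 h4 h2
  rw [one_mul] at this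
  rw [this]
  congr 1
  refine Finset.prod_congr rfl fun l hl => ?_
  have := fac_char' (a := 1) (hT l hl).1 (fun h => (hT l hl).1.one_lt.ne' (Nat.dvd_one.1 h))
    (hy l hl) hS
  rwa [one_mul] at this

/-- the factor at `2` and the factors at the primes of `T`, `3 d` with `d ≡ 1 mod 4` -/
theorem rest_3 {m D : ℕ} {T : Finset ℕ} (hT : OT T) (hy : ∀ l ∈ T, Hl m D l)
    (h2 : 2 ≤ D.factorization 2) {S : Finset ℕ} (hS : S ∈ m.primeFactors.powerset)
    (h4 : (∏ p ∈ S, p) % 4 = 1) :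
    tw (3 * ∏ p ∈ S, p) D * ∏ l ∈ T, fac (3 * ∏ p ∈ S, p) D l = YT m 3 D T (-1) S := by
  rw [Finset.mem_powerset] at hS
  unfold YT
  rw [tw3 h4 h2]
  congr 1
  refine Finset.prod_congr rfl fun l hl => ?_
  exact fac_char' (a := 3) (hT l hl).1 (fun h => (hT l hl).2.2
    ((Nat.prime_dvd_prime_iff_eq (hT l hl).1 Nat.prime_three).1 h)) (hy l hl) hS

/-- the characters at `3` for `m` prime to `3` -/
theorem ee_three {m : ℕ} (h3 : ¬ 3 ∣ m) {S : Finset ℕ} (hS : S ∈ m.primeFactors.powerset) :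
    ∏ p ∈ S, ee 1 m 3 p = c3 (∏ p ∈ S, p) := by
  rw [c3_prod]
  refine Finset.prod_congr rfl fun p hp => ?_
  rw [Finset.mem_powerset] at hS
  rw [ee, if_neg]
  · rfl
  · rintro rfl
    exact h3 (Nat.dvd_of_mem_primeFactors (hS hp))

/-- the sum over the divisors `≡ 3 mod 4` with a weight -/
theorem sum_f3 {m : ℕ} (hm : Squarefree m) (h2 : ¬ 2 ∣ m) (F : ℕ → ℤ)
    (G : Finset ℕ → ℤ) (h : ∀ S ∈ m.primeFactors.powerset, (∏ p ∈ S, p) % 4 = 3 →
      F (∏ p ∈ S, p) = G S) :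
    2 * ∑ d ∈ m.divisors.filter (fun d => d % 4 = 3), F d =
      ∑ S ∈ m.primeFactors.powerset, (1 + (-1) * c4 (∏ p ∈ S, p)) * G S := by
  rw [Finset.sum_filter, sum_div hm, Finset.mul_sum]
  refine Finset.sum_congr rfl fun S hS => ?_
  rcases odd_dvd h2 (prod_dvd hS) with h4 | h4
  · rw [if_neg (by omega), c4_one h4]; ring
  · rw [if_pos h4, c4_three h4, h S hS h4]; ring

end Pool.Agent.N871.P17
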